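import Pool.Agent.Y143.Defs

/-!
# Families over curves over local fields with a semistable fibre: definitions
-/

set_option autoImplicit false

open CategoryTheory CategoryTheory.Limits AlgebraicGeometry IsLocalRing

universe u v

namespace Pool.Agent.V5helper87.NF

open Pool.Agent.Y143

/-! ### Representations -/

/-- The cohomology group (in some degree) of a variety over a local field: a vector space `V` with
the action `Φ` of a geometric Frobenius element and the monodromy operator `N` (the logarithm of the
action of the inertia group). -/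
structure Rep (Ω : Type u) [Field Ω] where
  /-- the cohomology group -/
  V : Type v
  [addCommGroup : AddCommGroup V]
  [module : Module Ω V]
  /-- a geometric Frobenius element -/
  Φ : Module.End Ω V
  /-- the monodromy operator -/
  N : Module.End Ω V

attribute [instance] Rep.addCommGroup Rep.module

section reps

variable {Ω : Type u} [Field Ω]

/-- mw purity of weight `i`. -/
def Rep.IsPure [CharZero Ω] (R : Rep.{u, v} Ω) (q : ℕ) (i : ℤ) : Prop := IsMWPure q i R.Φ R.N

/-- The map `e` intertwines the operators `A` and `A'`. -/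
def Twines {V V' : Type v} [AddCommGroup V] [Module Ω V] [AddCommGroup V'] [Module Ω V']
    (e : V →ₗ[Ω] V') (A : Module.End Ω V) (A' : Module.End Ω V') : Prop :=
  ∀ x, e (A x) = A' (e x)

/-- The relation `N Φ = q Φ N` between a geometric Frobenius element and a monodromy operator. -/
def Twisted {V : Type v} [AddCommGroup V] [Module Ω V] (q : ℕ) (Φ N : Module.End Ω V) : Prop :=
  ∀ x, N (Φ x) = (q : Ω) • Φ (N x)

/-- The relation between the Frobenius element and the monodromy operator. -/
def Rep.IsLocal (R : Rep.{u, v} Ω) (q : ℕ) : Prop := Twisted q R.Φ R.N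

/-- Homomorphisms of representations. -/
structure IsHom (R R' : Rep.{u, v} Ω) (f : R.V →ₗ[Ω] R'.V) : Prop where
  Φ : Twines f R.Φ R'.Φ
  N : Twines f R.N R'.N

/-- `R` is a direct summand of `R'`. -/
def IsSummand (R R' : Rep.{u, v} Ω) : Prop :=
  ∃ (f : R.V →ₗ[Ω] R'.V) (g : R'.V →ₗ[Ω] R.V), IsHom R R' f ∧ IsHom R' R g ∧ ∀ x, g (f x) = x

/-- The Tate twist `R(-c)`. -/
def twist (q : ℕ) (c : ℕ) (R : Rep.{u, v} Ω) : Rep.{u, v} Ω where
  V := R.V
  Φ := (q : Ω) ^ c • R.Φ
  N := R.N

/-- The direct sum of a family of representations. -/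
def dsum {ι : Type} (R : ι → Rep.{u, v} Ω) : Rep.{u, v} Ω where
  V := ∀ i, (R i).V
  Φ := LinearMap.pi fun i => (R i).Φ ∘ₗ LinearMap.proj i
  N := LinearMap.pi fun i => (R i).N ∘ₗ LinearMap.proj i

/-- The representation `G` is the subquotient `C / A` of the representation `R`. -/
def IsSubquotient (R G : Rep.{u, v} Ω) (A C : Submodule Ω R.V) : Prop :=
  A ≤ C ∧ ∃ p : R.V →ₗ[Ω] G.V, (∀ z, ∃ x ∈ C, p x = z) ∧ (∀ x ∈ C, p x = 0 ↔ x ∈ A) ∧
    (∀ x ∈ C, R.Φ x ∈ C ∧ p (R.Φ x) = G.Φ (p x)) ∧ ∀ x ∈ C, R.N x ∈ C ∧ p (R.N x) = G.N (p x)

/-- The representations `R` and `R'` (of the Weil groups of two local fields whose residue fields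
have `q` elements) factor through the same representation of an extension of `ℤ` by an abelian group
on which the geometric Frobenius elements `F` act by `F⁻¹ h F = h ^ q`, the Frobenius elements
agree up to an element `h` of this abelian group, and the monodromy operators are proportional. -/
def Comparable (q : ℕ) (R R' : Rep.{u, v} Ω) : Prop :=
  ∃ (e : R.V →ₗ[Ω] R'.V) (h : Module.End Ω R'.V) (c : Ω), Function.Bijective e ∧
    Function.Bijective h ∧ c ≠ 0 ∧ Twines h R'.N R'.N ∧ h * R'.Φ = R'.Φ * h ^ q ∧
    Twines e R.Φ (R'.Φ * h) ∧ Twines e R.N (c • R'.N)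

/-- The representation with the power `Φ ^ k`. -/
def pw (k : ℕ) (R : Rep.{u, v} Ω) : Rep.{u, v} Ω where
  V := R.V
  Φ := R.Φ ^ k
  N := R.N

/-- `R` and `R'` are comparable after passing to a power of the Frobenius elements. -/
def PowComparable (q : ℕ) (R R' : Rep.{u, v} Ω) : Prop :=
  ∃ k : ℕ, 0 < k ∧ Comparable (q ^ k) (pw k R) (pw k R')

/-- The cohomology of the nearby fibre of a family over a curve over the local field `K`, at a
rational point `d`: a vector space with the action `Φ` of a geometric Frobenius element of `K`, the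
monodromy operator `N` around `d` and the monodromy operator `T` of `K`. -/
structure Rep₂ (Ω : Type u) [Field Ω] where
  /-- the cohomology group -/
  V : Type v
  [addCommGroup : AddCommGroup V]
  [module : Module Ω V]
  /-- a geometric Frobenius element -/
  Φ : Module.End Ω V
  /-- the monodromy operator around the point `d` -/
  N : Module.End Ω V
  /-- the monodromy operator of the local field `K` -/
  T : Module.End Ω V

attribute [instance] Rep₂.addCommGroup Rep₂.module

/-- The representation of the local field `K`. -/
def Rep₂.arith (R : Rep₂.{u, v} Ω) : Rep.{u, v} Ω where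
  V := R.V
  Φ := R.Φ
  N := R.T

/-- The representation at a point `t` with values in an extension of `K` with ramification index `e`
and residue degree `f`, such that `x(t)` has valuation `v`. -/
def Rep₂.at (R : Rep₂.{u, v} Ω) (e f v : ℕ) : Rep.{u, v} Ω where
  V := R.V
  Φ := R.Φ ^ f
  N := (e : Ω) • R.T + (v : Ω) • R.N

/-- The operators of `R` satisfy the usual relations. -/
structure Rep₂.IsLocal (R : Rep₂.{u, v} Ω) (q : ℕ) : Prop where
  N : Twisted q R.Φ R.N
  T : Twisted q R.Φ R.T
  comm : Twines R.N R.T R.T

end reps

/-! ### Local fields -/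

/-- A henselian discrete valuation ring `O` with finite residue field and its field of
fractions `K`. -/
structure LocalField where
  /-- the ring -/
  O : Type
  /-- the field -/
  K : Type
  [commRing : CommRing O]
  [isDomain : IsDomain O]
  [isDVR : IsDiscreteValuationRing O]
  [henselian : HenselianLocalRing O]
  [finite : Finite (ResidueField O)]
  [field : Field K]
  [algebra : Algebra O K]
  [fraction : IsFractionRing O K]

attribute [instance] LocalField.commRing LocalField.isDomain LocalField.isDVR LocalField.henselian
  LocalField.finite LocalField.field LocalField.algebra LocalField.fraction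

namespace LocalField

variable (L : LocalField)

/-- The number of elements of the residue field. -/
noncomputable def q : ℕ := Nat.card (ResidueField L.O)

/-- The residue characteristic. -/
noncomputable def p : ℕ := ringChar (ResidueField L.O)

/-- The valuation of an element of the ring. -/
noncomputable def val (y : L.O) : ℕ∞ := IsDiscreteValuationRing.addVal L.O y

/-- The element `z` of the field is a multiple of the element `y` of the ring. -/
def Divides (y : L.O) (z : L.K) : Prop := ∃ w : L.O, z = algebraMap L.O L.K (y * w)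

end LocalField

/-- An extension of `K` (with its ring `O`) to `K'`, `e` is the ramification index and `f` the degree
of the extension of the residue fields. -/
structure Ext (L L' : LocalField) where
  /-- the embedding of the rings -/
  ι : L.O →+* L'.O
  /-- the embedding of the fields -/
  κ : L.K →+* L'.K
  comm : ∀ a, κ (algebraMap L.O L.K a) = algebraMap L'.O L'.K (ι a)
  /-- the ramification index -/
  e : ℕ
  /-- the residue degree -/
  f : ℕ
  e_pos : 0 < e
  f_pos : 0 < f
  val : ∀ a, L'.val (ι a) = (e : ℕ∞) * L.val a
  card : L'.q = L.q ^ f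

/-! ### Families -/

/-- The morphism `f` is smooth and proper. -/
structure SmoothProper {X S : Scheme.{0}} (f : X ⟶ S) : Prop where
  smooth : Smooth f
  proper : IsProper f

/-- `X ⟶ T` is the fibre (the base change) of the family `g` over the point `y : T ⟶ Y`. -/
def IsFibre {𝒴 Y X T : Scheme.{0}} (g : 𝒴 ⟶ Y) (y : T ⟶ Y) (str : X ⟶ T) : Prop :=
  ∃ top : X ⟶ 𝒴, IsPullback top str g y

/-- A family `f : X ⟶ Spec A` over an affine curve over the local field `K`, with a coordinate `x` and
a rational point `d` of the curve, and closed subschemes `D_j` of the fibre over `d`. -/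
structure Fam (L : LocalField) where
  /-- the ring of functions on the curve -/
  A : Type
  [commRing : CommRing A]
  /-- the structure homomorphism -/
  φ : L.K →+* A
  /-- the coordinate -/
  x : A
  /-- the rational point -/
  d : A →+* L.K
  /-- the total space -/
  X : Scheme.{0}
  /-- the family -/
  f : X ⟶ Spec (.of A)
  /-- the number of the `D_j` -/
  r : ℕ
  /-- the ideal sheaves of the `D_j` -/
  D : Fin r → X.IdealSheafData

attribute [instance] Fam.commRing

namespace Fam

variable {L : LocalField} (F : Fam L)

/-- The total space as a scheme over `K`. -/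
noncomputable def str : F.X ⟶ Spec (.of L.K) := F.f ≫ Spec.map (CommRingCat.ofHom F.φ)

/-- The point `d`. -/
noncomputable def pt : Spec (.of L.K) ⟶ Spec (.of F.A) := Spec.map (CommRingCat.ofHom F.d)

/-- The complement of the point `d` (given by `x ≠ 0`). -/
def off : (Spec (.of F.A)).Opens := PrimeSpectrum.basicOpen F.x

/-- The intersection of the `D_j` for `j` in `I`. -/
noncomputable def stratum (I : Finset (Fin F.r)) : Scheme.{0} := (⨆ j ∈ I, F.D j).subscheme

/-- The intersection of the `D_j` for `j` in `I`, as a scheme over `K`. -/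
noncomputable def stratumStr (I : Finset (Fin F.r)) : F.stratum I ⟶ Spec (.of L.K) :=
  (⨆ j ∈ I, F.D j).subschemeι ≫ F.str

/-- The family is proper, of relative dimension `n`, smooth outside `d`, and strictly semistable at
`d`: the coordinate `x` is étale and its only zero is `d`, the total space is smooth over `K` of
dimension `n + 1`, the (scheme theoretic) fibre over `d` is the sum of the divisors `D_j`, and the
intersection of `m` of the `D_j` is smooth over `K` of dimension `n + 1 - m` (and empty if
`m > n + 1`). -/
structure IsSemistable (n : ℕ) : Prop where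
  etale : (Polynomial.eval₂RingHom F.φ F.x).Etale
  section_d : ∀ a, F.d (F.φ a) = a
  ker_d : RingHom.ker F.d = Ideal.span {F.x}
  proper : IsProper F.f
  smooth : SmoothOfRelativeDimension (n + 1) F.str
  smooth_off : Smooth (F.f ∣_ F.off)
  fibre : F.pt.ker.comap F.f = ∏ j, F.D j
  strata : ∀ I : Finset (Fin F.r), I.Nonempty → I.card ≤ n + 1 →
    SmoothOfRelativeDimension (n + 1 - I.card) (F.stratumStr I)
  empty : ∀ I : Finset (Fin F.r), n + 1 < I.card → IsEmpty (F.stratum I)

/-- The point `t` of the curve with values in the extension `K'` of `K` is close to the point `d`: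
`t a - d a` is a multiple of `π ^ v₀`, for `a` in the finite set `S` of functions (`π` is a
uniformizer of `K`). These conditions define a basis of neighbourhoods of `d`, as `S` and `v₀`
vary. -/
def CloseTo {L' : LocalField} (E : Ext L L') (S : Finset F.A) (v₀ : ℕ) (t : F.A →+* L'.K) : Prop :=
  ∀ a ∈ S, ∃ y ∈ maximalIdeal L.O ^ v₀, L'.Divides (E.ι y) (t a - E.κ (F.d a))

/-- The scheme `X` over `K'` is the fibre of the family over the point `t` with values in `K'`. -/
def FibreAt {L' : LocalField} (t : F.A →+* L'.K) {X : Scheme.{0}} (str : X ⟶ Spec (.of L'.K)) :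
    Prop :=
  IsFibre F.f (Spec.map (CommRingCat.ofHom t)) str

end Fam

/-- The scheme `Y` over `K`, smooth and proper of dimension `n`, is uniruled: there is a dominant
morphism from an open subscheme of the product of the affine line and a scheme `Z` which is smooth of
dimension `n - 1`. -/
def IsUniruled (L : LocalField) (n : ℕ) {Y : Scheme.{0}} (str : Y ⟶ Spec (.of L.K)) : Prop :=
  ∃ (Z U : Scheme.{0}) (z : Z ⟶ Spec (.of L.K)) (u : U ⟶ 𝔸(Fin 1; Z)) (g : U ⟶ Y),
    SmoothOfRelativeDimension (n - 1) z ∧ QuasiCompact z ∧ IsOpenImmersion u ∧ IsDominant g ∧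
      g ≫ str = u ≫ (𝔸(Fin 1; Z) ↘ Z) ≫ z

/-! ### Cohomology -/

/-- The data of the cohomology groups `H^m(X_{\bar K}, Ω)` (`Ω` the algebraic closure of `ℚ_ℓ`) of
the schemes `X` over the local fields `K`, and of the cohomology groups `H^m` of the nearby fibres of
families over curves over `K`. -/
structure NearData (Ω : Type u) [Field Ω] where
  /-- the cohomology groups -/
  H : ∀ (L : LocalField) {X : Scheme.{0}}, (X ⟶ Spec (.of L.K)) → ℕ → Rep.{u, v} Ω
  /-- the cohomology groups of the nearby fibre -/
  ψ : ∀ {L : LocalField}, Fam L → ℕ → Rep₂.{u, v} Ω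

namespace NearData

variable {Ω : Type u} [Field Ω] (T : NearData.{u, v} Ω)

/-- The smooth and proper varieties of dimension less than `n` over `K` satisfy the conjecture. -/
def MW [CharZero Ω] (L : LocalField) (n : ℕ) : Prop :=
  ∀ (k : ℕ) (X : Scheme.{0}) (str : X ⟶ Spec (.of L.K)), k < n → SmoothProper str →
    SmoothOfRelativeDimension k str → ∀ m : ℕ, (T.H L str m).IsPure L.q m

/-- The index set of the direct sum `E_1^(-r, m + r)`: the nonempty sets `I` of components, with
`s + 1` elements, such that `s ≤ n`, `s ≤ m`, `|r| ≤ s` and `s + r` is even. -/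
def Idx {L : LocalField} (F : Fam L) (n : ℕ) (r m : ℤ) : Type :=
  {I : Finset (Fin F.r) // I.Nonempty ∧ I.card ≤ n + 1 ∧ (I.card : ℤ) - 1 ≤ m ∧
    |r| ≤ (I.card : ℤ) - 1 ∧ Even ((I.card : ℤ) - 1 + r)}

/-- The term `E_1^(-r, m + r) = ⨁ H^(m - s)(D_I)(-(s + r) / 2)` of the weight spectral sequence, the
sum being over the sets `I` of `s + 1` components, `s ≥ |r|`, `s ≡ r` modulo `2`. -/
noncomputable def E₁ {L : LocalField} (F : Fam L) (n : ℕ) (r m : ℤ) : Rep.{u, v} Ω :=
  dsum fun I : Idx F n r m => twist L.q (((I.1.card : ℤ) - 1 + r) / 2).toNat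
    (T.H L (F.stratumStr I.1) (m - ((I.1.card : ℤ) - 1)).toNat)

/-- The representation `G` is the homology of a complex
`E_1^(-r - 1, m + r) → E_1^(-r, m + r) → E_1^(-r + 1, m + r)`. -/
def IsHomology {L : LocalField} (F : Fam L) (n : ℕ) (r m : ℤ) (G : Rep.{u, v} Ω) : Prop :=
  ∃ (f : (T.E₁ F n (r + 1) (m - 1)).V →ₗ[Ω] (T.E₁ F n r m).V)
    (g : (T.E₁ F n r m).V →ₗ[Ω] (T.E₁ F n (r - 1) (m + 1)).V),
    IsHom _ _ f ∧ IsHom _ _ g ∧ (∀ x, g (f x) = 0) ∧
      IsSubquotient (T.E₁ F n r m) G (LinearMap.range f) (LinearMap.ker g)

/-- The weight spectral sequence of the family `F` at the semistable fibre (the residue field of the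
curve at this point has characteristic zero): `Gr^M_r H^m` of the nearby fibre, for the monodromy
filtration `M` of the monodromy operator around `d`, is the homology of the complex
`E_1^(-r - 1, m + r) → E_1^(-r, m + r) → E_1^(-r + 1, m + r)` of representations of the local
field `K`. -/
def WeightSequence {L : LocalField} (F : Fam L) (n m : ℕ) : Prop :=
  ∃ M : ℤ → Submodule Ω (T.ψ F m).V, IsMonodromyFiltration (T.ψ F m).N M ∧
    ∀ r : ℤ, ∃ G : Rep.{u, v} Ω, IsSubquotient (T.ψ F m).arith G (M (r - 1)) (M r) ∧
      T.IsHomology F n r m G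

/-- The fibres `X_t` of the family over the points `t` close to `d`, with values in extensions
of `K`. By proper and smooth base change the cohomology of `X_t` is given by the representation of
the fundamental group of a punctured disc around `d`, which is tame if the disc is small
(Lütkebohmert), and so factors through an extension of the Galois group of `K` by a group isomorphic
to `ℤ_ℓ(1)`. The point `t` yields a section over the Galois group of the extension field, which is
given by the Kummer class of `x(t)`. -/
def Tame {L : LocalField} (F : Fam L) : Prop :=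
  ∃ (S : Finset F.A) (v₀ : ℕ), ∀ (L' : LocalField) (E : Ext L L') (t : F.A →+* L'.K),
    (∀ a, t (F.φ a) = E.κ a) → F.CloseTo E S v₀ t → ∀ (y : L'.O) (v : ℕ),
    t F.x = algebraMap L'.O L'.K y → L'.val y = v →
    ∀ (X : Scheme.{0}) (str : X ⟶ Spec (.of L'.K)), F.FibreAt t str →
      ∀ m, PowComparable L'.q (T.H L' str m) ((T.ψ F m).at E.e E.f v)

/-- The known properties of `ℓ`-adic cohomology. -/
structure IsEtale [CharZero Ω] (ℓ : ℕ) : Prop where
  /-- Finiteness. -/
  finite : ∀ (L : LocalField) {X : Scheme.{0}} (str : X ⟶ Spec (.of L.K)), L.p ≠ ℓ →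
    SmoothProper str → ∀ m, FiniteDimensional Ω (T.H L str m).V
  /-- The relation between the Frobenius element and the monodromy operator. -/
  isLocal : ∀ (L : LocalField) {X : Scheme.{0}} (str : X ⟶ Spec (.of L.K)), L.p ≠ ℓ →
    SmoothProper str → ∀ m, (T.H L str m).IsLocal L.q
  /-- The theorem of Rapoport and Zink: the conjecture holds in dimension at most two. -/
  rapoportZink : ∀ L : LocalField, CharZero L.K → L.p ≠ ℓ → T.MW L 3
  /-- The cohomology of uniruled varieties (resolution of singularities, cohomology of blow ups and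
  of products with the projective line): `H^m(Y)` is a direct summand of a sum of Tate twists of
  cohomology groups of smooth and proper varieties of smaller dimension. -/
  uniruled : ∀ (L : LocalField), CharZero L.K → L.p ≠ ℓ → ∀ (n : ℕ) (Y : Scheme.{0})
    (str : Y ⟶ Spec (.of L.K)), 0 < n → SmoothProper str → SmoothOfRelativeDimension n str →
    IsUniruled L n str → ∀ m : ℕ, ∃ (s : ℕ) (k a c : Fin s → ℕ) (Z : Fin s → Scheme.{0})
      (z : ∀ i, Z i ⟶ Spec (.of L.K)), (∀ i, k i < n ∧ SmoothProper (z i) ∧
        SmoothOfRelativeDimension (k i) (z i) ∧ a i + 2 * c i = m) ∧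
      IsSummand (T.H L str m) (dsum fun i => twist L.q (c i) (T.H L (z i) (a i)))
  /-- The nearby fibre: finiteness, the relations between the operators, vanishing in degrees
  above `2 n`, and the weight spectral sequence (Steenbrink, Rapoport and Zink, Saito). -/
  nearby : ∀ (L : LocalField), CharZero L.K → L.p ≠ ℓ → ∀ (n : ℕ) (F : Fam L), F.IsSemistable n →
    ∀ m, FiniteDimensional Ω (T.ψ F m).V ∧ (T.ψ F m).IsLocal L.q ∧
      (2 * n < m → Subsingleton (T.ψ F m).V) ∧ T.WeightSequence F n m
  /-- The fibres over the points close to `d`. -/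
  tame : ∀ (L : LocalField), CharZero L.K → L.p ≠ ℓ → ∀ (n : ℕ) (F : Fam L), F.IsSemistable n →
    T.Tame F

end NearData

end Pool.Agent.V5helper87.NF
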