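import Pool.Agent.V5helper87.NF.Pure
import Pool.Agent.V5helper87.NF.Df

/-!
# The category of mw pure representations of fixed weight

It is closed under kernels and cokernels, so the homology of a complex of mw pure representations of
weight `i` is mw pure of weight `i`. It is closed under direct sums and direct summands.
-/

set_option autoImplicit false

namespace Pool.Agent.V5helper87.NF

open Module Pool.Agent.Y143 Pool.Agent.Y163.MW Pool.Agent.Y136.UB
open Pool.Agent.V5helper87.LP (SubQ indQ clQ clQ_eq_zero clQ_surj clQ_eigen indQ_clQ)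

universe u v v'

variable {Ω : Type u} [Field Ω]

/-- The subspaces `A ≤ C` are stable. -/
structure Stab (R : Rep.{u, v} Ω) (A C : Submodule Ω R.V) : Prop where
  le : A ≤ C
  ΦC : ∀ x ∈ C, R.Φ x ∈ C
  ΦA : ∀ x ∈ A, R.Φ x ∈ A
  NC : ∀ x ∈ C, R.N x ∈ C
  NA : ∀ x ∈ A, R.N x ∈ A

/-- The subquotient `C / A`. -/
noncomputable def sq (R : Rep.{u, v} Ω) {A C : Submodule Ω R.V} (h : Stab R A C) :
    Rep.{u, v} Ω where
  V := SubQ C A
  Φ := indQ C A R.Φ h.ΦC h.ΦA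
  N := indQ C A R.N h.NC h.NA

/-- Isomorphism of representations. -/
def Iso (R R' : Rep.{u, v} Ω) : Prop := ∃ e : R.V ≃ₗ[Ω] R'.V, IsHom R R' e.toLinearMap

lemma Iso.isSummand {R R' : Rep.{u, v} Ω} (h : Iso R R') : IsSummand R R' := by
  obtain ⟨e, he⟩ := h
  refine ⟨e.toLinearMap, e.symm.toLinearMap, he, ⟨fun x => ?_, fun x => ?_⟩, fun x => ?_⟩
  · apply e.injective
    have := he.Φ (e.symm x)
    simp only [LinearEquiv.coe_coe, LinearEquiv.apply_symm_apply] at this ⊢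
    exact this.symm
  · apply e.injective
    have := he.N (e.symm x)
    simp only [LinearEquiv.coe_coe, LinearEquiv.apply_symm_apply] at this ⊢
    exact this.symm
  · simp

lemma Iso.isSummand' {R R' : Rep.{u, v} Ω} (h : Iso R R') : IsSummand R' R := by
  obtain ⟨f, g, hf, hg, h1⟩ := h.isSummand
  obtain ⟨e, he⟩ := h
  refine ⟨e.symm.toLinearMap, e.toLinearMap, ⟨fun x => ?_, fun x => ?_⟩, he, fun x => ?_⟩
  · apply e.injective
    have := he.Φ (e.symm x)
    simp only [LinearEquiv.coe_coe, LinearEquiv.apply_symm_apply] at this ⊢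
    exact this.symm
  · apply e.injective
    have := he.N (e.symm x)
    simp only [LinearEquiv.coe_coe, LinearEquiv.apply_symm_apply] at this ⊢
    exact this.symm
  · simp

lemma IsSubquotient.iso {R G : Rep.{u, v} Ω} {A C : Submodule Ω R.V}
    (h : IsSubquotient R G A C) : ∃ h' : Stab R A C, Iso (sq R h') G := by
  obtain ⟨hle, p, h1, h2, h3, h4⟩ := h
  have hs : Stab R A C := by
    refine ⟨hle, fun x hx => (h3 x hx).1, fun x hx => ?_, fun x hx => (h4 x hx).1, fun x hx => ?_⟩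
    · rw [← h2 _ (h3 x (hle hx)).1, (h3 x (hle hx)).2, (h2 x (hle hx)).2 hx, map_zero]
    · rw [← h2 _ (h4 x (hle hx)).1, (h4 x (hle hx)).2, (h2 x (hle hx)).2 hx, map_zero]
  refine ⟨hs, ?_⟩
  let p' : SubQ C A →ₗ[Ω] G.V := (A.comap C.subtype).liftQ (p ∘ₗ C.subtype) (fun x hx =>
    (h2 x x.2).2 hx)
  have hp' : ∀ x : C, p' (clQ C A x) = p x := fun x => rfl
  have hinj : Function.Injective p' := by
    rw [← LinearMap.ker_eq_bot, LinearMap.ker_eq_bot']
    intro z hz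
    obtain ⟨x, rfl⟩ := clQ_surj C A z
    exact (clQ_eq_zero C A x).2 ((h2 x x.2).1 hz)
  have hsurj : Function.Surjective p' := by
    intro z
    obtain ⟨x, hx, hxz⟩ := h1 z
    exact ⟨clQ C A ⟨x, hx⟩, hxz⟩
  refine ⟨LinearEquiv.ofBijective p' ⟨hinj, hsurj⟩, ⟨fun z => ?_, fun z => ?_⟩⟩
  · obtain ⟨x, rfl⟩ := clQ_surj C A z
    exact (h3 x x.2).2
  · obtain ⟨x, rfl⟩ := clQ_surj C A z
    exact (h4 x x.2).2

section pow

variable {V : Type v} [AddCommGroup V] [Module Ω V]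

lemma indQ_pow (B A : Submodule Ω V) (T : Module.End Ω V) (hB : ∀ x ∈ B, T x ∈ B)
    (hA : ∀ x ∈ A, T x ∈ A) (a : ℕ) (x : B) : ∃ h : (T ^ a) (x : V) ∈ B,
      ((indQ B A T hB hA) ^ a) (clQ B A x) = clQ B A ⟨(T ^ a) (x : V), h⟩ := by
  induction a with
  | zero => exact ⟨x.2, rfl⟩
  | succ a ih =>
    obtain ⟨h, h'⟩ := ih
    refine ⟨?_, ?_⟩
    · rw [pow_succ', Module.End.mul_apply]
      exact hB _ h
    · rw [pow_succ', Module.End.mul_apply, h', indQ_clQ]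
      congr 1
      apply Subtype.ext
      show T ((T ^ a) (x : V)) = (T ^ (a + 1)) (x : V)
      rw [pow_succ', Module.End.mul_apply]

end pow

lemma IsHom.pow {R R' : Rep.{u, v} Ω} {f : R.V →ₗ[Ω] R'.V} (h : IsHom R R' f) (a : ℕ) (x : R.V) :
    f ((R.N ^ a) x) = (R'.N ^ a) (f x) := by
  induction a with
  | zero => rfl
  | succ a ih => rw [pow_succ', Module.End.mul_apply, h.N, ih, pow_succ', Module.End.mul_apply]

section pure

variable [CharZero Ω] [IsAlgClosed Ω] {q : ℕ}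

lemma pure_iff (hq : 1 < q) {R : Rep.{u, v} Ω} [FiniteDimensional Ω R.V] (hR : R.IsLocal q)
    {i : ℤ} : R.IsPure q i ↔ HasWts q R.Φ ∧ Centred (fun c => wtsp q R.Φ (i + c)) R.N :=
  isMWPure_iff hq hR

lemma local_indQ {V : Type v} [AddCommGroup V] [Module Ω V] {Φ T : Module.End Ω V}
    (hT : ∀ x, T (Φ x) = (q : Ω) • Φ (T x))
    {B A : Submodule Ω V} (hB : ∀ x ∈ B, Φ x ∈ B) (hA : ∀ x ∈ A, Φ x ∈ A)
    (hB' : ∀ x ∈ B, T x ∈ B) (hA' : ∀ x ∈ A, T x ∈ A) (z : SubQ B A) :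
    indQ B A T hB' hA' (indQ B A Φ hB hA z) =
      (q : Ω) • indQ B A Φ hB hA (indQ B A T hB' hA' z) := by
  obtain ⟨x, rfl⟩ := clQ_surj _ _ z
  rw [indQ_clQ, indQ_clQ, indQ_clQ, indQ_clQ]
  have : (q : Ω) • clQ B A ⟨Φ (T (x : V)), hB _ (hB' _ x.2)⟩ =
      clQ B A ((q : Ω) • ⟨Φ (T (x : V)), hB _ (hB' _ x.2)⟩) := rfl
  rw [this]
  congr 1
  exact Subtype.ext (hT x)

lemma isLocal_sq {R : Rep.{u, v} Ω} (hR : R.IsLocal q) {A C : Submodule Ω R.V} (h : Stab R A C) :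
    (sq R h).IsLocal q :=
  fun z => local_indQ hR h.ΦC h.ΦA h.NC h.NA z

instance {R : Rep.{u, v} Ω} [FiniteDimensional Ω R.V] {A C : Submodule Ω R.V} (h : Stab R A C) :
    FiniteDimensional Ω (sq R h).V :=
  Module.Finite.quotient Ω _

/-- The homology of a complex of mw pure representations of the same weight is mw pure. -/
theorem homology_pure (hq : 1 < q) {A B C : Rep.{u, v} Ω} [FiniteDimensional Ω A.V]
    [FiniteDimensional Ω B.V] [FiniteDimensional Ω C.V] {f : A.V →ₗ[Ω] B.V}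
    {g : B.V →ₗ[Ω] C.V} (hA : A.IsLocal q) (hB : B.IsLocal q) (hC : C.IsLocal q)
    (hf : IsHom A B f) (hg : IsHom B C g) (h : Stab B (LinearMap.range f) (LinearMap.ker g)) {i : ℤ}
    (pA : A.IsPure q i) (pB : B.IsPure q i) (pC : C.IsPure q i) : (sq B h).IsPure q i := by
  rw [pure_iff hq hA] at pA
  rw [pure_iff hq hB] at pB
  rw [pure_iff hq hC] at pC
  rw [pure_iff hq (isLocal_sq hB h)]
  refine ⟨hasWts_indQ h.ΦC h.ΦA pB.1, fun a => ⟨fun z hz hz0 => ?_, fun z hz => ?_⟩⟩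
  · obtain ⟨x, hx, hxw, rfl⟩ := exists_clQ h.ΦC h.ΦA hq pB.1 hz
    obtain ⟨h1, h2⟩ := indQ_pow _ _ B.N h.NC h.NA a ⟨x, hx⟩
    obtain ⟨y, hy⟩ := (clQ_eq_zero _ _ _).1 (h2.symm.trans hz0)
    have h4 : (B.N ^ a) x ∈ wtsp q B.Φ (i + a - 2 * a) := wtsp_pow hq hB hxw a
    rw [show i + (a : ℤ) - 2 * a = i + -(a : ℤ) by ring] at h4
    obtain ⟨y', hy', hy''⟩ := exists_lift (iSup_wtsp pA.1) (indep_wtsp hq B.Φ) f
      (fun w x hx => wtsp_map f hf.Φ hx) (x := y) (by rw [hy]; exact h4)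
    obtain ⟨t, ht, ht'⟩ := (pA.2 a).2 y' hy'
    have h5 : x - f t = 0 := by
      apply (pB.2 a).1
      · exact Submodule.sub_mem _ hxw (wtsp_map f hf.Φ ht)
      · rw [map_sub, ← hf.pow, ht', hy'', hy, sub_self]
    exact (clQ_eq_zero _ _ _).2 ⟨t, (sub_eq_zero.1 h5).symm⟩
  · obtain ⟨x, hx, hxw, rfl⟩ := exists_clQ h.ΦC h.ΦA hq pB.1 hz
    obtain ⟨y, hy, hy'⟩ := (pB.2 a).2 x hxw
    have hgy : g y = 0 := by
      apply (pC.2 a).1
      · exact wtsp_map g hg.Φ hy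
      · rw [← hg.pow, hy']
        exact hx
    refine ⟨clQ _ _ ⟨y, hgy⟩, clQ_mem h.ΦC h.ΦA hq pB.1 hgy hy, ?_⟩
    obtain ⟨h1, h2⟩ := indQ_pow _ _ B.N h.NC h.NA a ⟨y, hgy⟩
    refine h2.trans ?_
    congr 1
    exact Subtype.ext hy'

lemma IsSummand.isLocal {R R' : Rep.{u, v} Ω} (h : IsSummand R R') (h' : R'.IsLocal q) :
    R.IsLocal q := by
  obtain ⟨f, g, hf, hg, hgf⟩ := h
  intro x
  rw [← hgf (R.N (R.Φ x)), hf.N, hf.Φ, h', map_smul, hg.Φ, hg.N, hgf]

/-- Direct summands of mw pure representations are mw pure. -/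
theorem IsSummand.pure (hq : 1 < q) {R R' : Rep.{u, v} Ω} [FiniteDimensional Ω R'.V]
    (h : IsSummand R R') (h' : R'.IsLocal q) {i : ℤ} (p : R'.IsPure q i) : R.IsPure q i := by
  have hL := h.isLocal h'
  obtain ⟨f, g, hf, hg, hgf⟩ := h
  have hinj : Function.Injective f := Function.LeftInverse.injective hgf
  haveI : FiniteDimensional Ω R.V := FiniteDimensional.of_injective f hinj
  rw [pure_iff hq h'] at p
  rw [pure_iff hq hL]
  refine ⟨fun α x hx0 hx => p.1 α (f x) (fun h0 => hx0 (hinj (by rw [h0, map_zero]))) ?_,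
    fun a => ⟨fun x hx hx0 => ?_, fun z hz => ?_⟩⟩
  · rw [← hf.Φ, hx, map_smul]
  · apply hinj
    rw [map_zero]
    apply (p.2 a).1 _ (wtsp_map f hf.Φ hx)
    rw [← hf.pow, hx0, map_zero]
  · obtain ⟨y, hy, hy'⟩ := (p.2 a).2 (f z) (wtsp_map f hf.Φ hz)
    refine ⟨g y, wtsp_map g hg.Φ hy, ?_⟩
    rw [← hg.pow, hy', hgf]

lemma isLocal_twist {R : Rep.{u, v} Ω} (h : R.IsLocal q) (c : ℕ) :
    (twist q c R).IsLocal q := by
  intro x
  show R.N ((q : Ω) ^ c • R.Φ x) = (q : Ω) • ((q : Ω) ^ c • R.Φ (R.N x))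
  rw [map_smul, h, smul_smul, smul_smul, mul_comm]

/-- Tate twists of mw pure representations are mw pure. -/
theorem twist_pure (hq : 1 < q) {R : Rep.{u, v} Ω} [FiniteDimensional Ω R.V]
    (h : R.IsLocal q) {i : ℤ} (p : R.IsPure q i) (c : ℕ) : (twist q c R).IsPure q (i + 2 * c) := by
  obtain ⟨M, hM, hMΦ, hMw⟩ := p
  have hq0 : ((q : Ω) ^ c) ≠ 0 := pow_ne_zero _ (Nat.cast_ne_zero.2 (by omega))
  show IsMWPure q (i + 2 * c) ((q : Ω) ^ c • R.Φ) R.N
  refine ⟨M, hM, fun a x hx => (M a).smul_mem _ (hMΦ a x hx), fun a α x hx hx' hα => ?_⟩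
  have h1 : R.Φ x - (((q : Ω) ^ c)⁻¹ * α) • x ∈ M (a - 1) := by
    have h2 : (((q : Ω) ^ c)⁻¹) • ((q : Ω) ^ c • R.Φ x - α • x) ∈ M (a - 1) :=
      (M (a - 1)).smul_mem _ hα
    rwa [smul_sub, smul_smul, inv_mul_cancel₀ hq0, one_smul, smul_smul] at h2
  have h2 := (hMw a _ x hx hx' h1).twist (by omega : q ≠ 0) c
  rw [zpow_natCast, mul_inv_cancel_left₀ hq0] at h2
  rwa [show a + i + 2 * (c : ℤ) = a + (i + 2 * c) by ring] at h2

section dsum

variable {ι : Type} {R : ι → Rep.{u, v} Ω}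

lemma isLocal_dsum (h : ∀ i, (R i).IsLocal q) : (dsum R).IsLocal q := by
  intro x
  funext i
  exact h i (x i)

lemma dsum_pow (a : ℕ) (x : ∀ i, (R i).V) (i : ι) :
    ((dsum R).N ^ a : Module.End Ω (∀ i, (R i).V)) x i = ((R i).N ^ a) (x i) := by
  induction a with
  | zero => rfl
  | succ a ih =>
    rw [pow_succ', Module.End.mul_apply, pow_succ', Module.End.mul_apply, ← ih]
    rfl

variable [Finite ι] [∀ i, FiniteDimensional Ω (R i).V]

instance instFiniteDimensionalVDsum : FiniteDimensional Ω (dsum R).V := by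
  show FiniteDimensional Ω (∀ i, (R i).V)
  infer_instance

lemma hasWts_dsum (h : ∀ i, HasWts q (R i).Φ) : HasWts q (dsum R).Φ := by
  intro α x hx0 hx
  obtain ⟨i, hi⟩ : ∃ i, x i ≠ 0 := by
    by_contra hno
    push Not at hno
    exact hx0 (funext hno)
  exact h i α (x i) hi (congrFun hx i)

lemma mem_wtsp_dsum (hq : 1 < q) (h : ∀ i, HasWts q (R i).Φ) {w : ℤ} {x : (dsum R).V} :
    x ∈ wtsp q (dsum R).Φ w ↔ ∀ i, x i ∈ wtsp q (R i).Φ w := by
  classical
  have := Fintype.ofFinite ι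
  constructor
  · intro hx i
    exact wtsp_map (LinearMap.proj i : (∀ i, (R i).V) →ₗ[Ω] (R i).V) (fun _ => rfl) hx
  · intro hx
    have h1 : x = ∑ i, LinearMap.single Ω (fun i => (R i).V) i (x i) := by
      funext j
      simp [Finset.sum_apply, Pi.single_apply]
    rw [h1]
    refine Submodule.sum_mem _ fun i _ => ?_
    refine wtsp_map (LinearMap.single Ω (fun i => (R i).V) i) (fun y => ?_) (hx i)
    funext j
    by_cases hij : j = i
    · subst hij
      simp [dsum]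
    · simp [dsum, Pi.single_eq_of_ne hij]

/-- Direct sums of mw pure representations are mw pure. -/
theorem dsum_pure (hq : 1 < q) (hL : ∀ i, (R i).IsLocal q) {i : ℤ}
    (p : ∀ j, (R j).IsPure q i) : (dsum R).IsPure q i := by
  have p' : ∀ j, HasWts q (R j).Φ ∧ Centred (fun c => wtsp q (R j).Φ (i + c)) (R j).N := fun j =>
    (pure_iff hq (hL j)).1 (p j)
  have hw : ∀ j, HasWts q (R j).Φ := fun j => (p' j).1
  rw [pure_iff hq (isLocal_dsum hL)]
  refine ⟨hasWts_dsum hw, fun a => ⟨fun x hx hx0 => ?_, fun z hz => ?_⟩⟩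
  · funext j
    apply ((p' j).2 a).1 _ ((mem_wtsp_dsum hq hw).1 hx j)
    rw [← dsum_pow]
    exact congrFun hx0 j
  · have h1 := fun j => ((p' j).2 a).2 _ ((mem_wtsp_dsum hq hw).1 hz j)
    choose y hy hy' using h1
    refine ⟨y, (mem_wtsp_dsum hq hw).2 hy, ?_⟩
    funext j
    rw [dsum_pow]
    exact hy' j

end dsum

end pure

end Pool.Agent.V5helper87.NF
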