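import Pool.Agent.V5helper87.NF.Near

/-!
# The conjecture for the fibres close to a semistable fibre
-/

set_option autoImplicit false

open CategoryTheory CategoryTheory.Limits AlgebraicGeometry IsLocalRing

universe u v

namespace Pool.Agent.V5helper87.NF

open Pool.Agent.Y143

section geometry

variable {L : LocalField} {F : Fam L} {n : ℕ}

lemma prod_le_D {X : Scheme.{0}} {r : ℕ} (D : Fin r → X.IdealSheafData) (j : Fin r) :
    ∏ i, D i ≤ D j := by
  rw [← Finset.mul_prod_erase _ _ (Finset.mem_univ j)]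
  intro U
  have h : ∀ I J : Ideal Γ(X, U), I * J ≤ I := fun I J => Ideal.mul_le_inf.trans inf_le_left
  exact h _ _

lemma stratum_smoothProper (hF : F.IsSemistable n) {I : Finset (Fin F.r)} (hI : I.Nonempty)
    (hn : I.card ≤ n + 1) : SmoothProper (F.stratumStr I) := by
  have hp := hF.proper
  have hs := hF.strata I hI hn
  refine ⟨SmoothOfRelativeDimension.smooth (n + 1 - I.card) _, ?_⟩
  -- the stratum lies in the fibre
  set i := (⨆ j ∈ I, F.D j).subschemeι with hi
  have hsurj : Function.Surjective F.d := fun a => ⟨F.φ a, hF.section_d a⟩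
  haveI : IsClosedImmersion (Spec.map (CommRingCat.ofHom F.d)) :=
    IsClosedImmersion.spec_of_surjective _ hsurj
  obtain ⟨j, hj⟩ := hI
  have h1 : (Spec.map (CommRingCat.ofHom F.d)).ker.comap F.f ≤ ⨆ j ∈ I, F.D j := by
    have h0 := hF.fibre
    unfold Fam.pt at h0
    rw [h0]
    exact (prod_le_D F.D j).trans (le_iSup₂_of_le j hj le_rfl)
  have h2 : (Spec.map (CommRingCat.ofHom F.d)).ker ≤ (i ≫ F.f).ker :=
    Scheme.IdealSheafData.le_map_iff_comap_le.2 h1
  let l := IsClosedImmersion.lift (Spec.map (CommRingCat.ofHom F.d)) (i ≫ F.f) h2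
  have hl : l ≫ Spec.map (CommRingCat.ofHom F.d) = i ≫ F.f := IsClosedImmersion.lift_fac _ _ h2
  have hproper : IsProper l := by
    haveI : IsProper (l ≫ Spec.map (CommRingCat.ofHom F.d)) := by
      rw [hl]
      infer_instance
    exact IsProper.of_comp l (Spec.map (CommRingCat.ofHom F.d))
  have hid : Spec.map (CommRingCat.ofHom F.d) ≫ Spec.map (CommRingCat.ofHom F.φ) = 𝟙 _ := by
    rw [← Spec.map_comp, ← CommRingCat.ofHom_comp,
      show F.d.comp F.φ = RingHom.id L.K from RingHom.ext hF.section_d]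
    exact Spec.map_id _
  have hstr : F.stratumStr I = l := by
    show i ≫ F.f ≫ Spec.map (CommRingCat.ofHom F.φ) = l
    rw [← Category.assoc, ← hl, Category.assoc, hid, Category.comp_id]
  rw [hstr]
  exact hproper

/-- The fibres over the points different from `d` are smooth and proper. -/
lemma fibre_smoothProper (hF : F.IsSemistable n) {L' : LocalField} {t : F.A →+* L'.K}
    (ht : t F.x ≠ 0) {X : Scheme.{0}} {str : X ⟶ Spec (.of L'.K)}
    (h : F.FibreAt t str) : SmoothProper str := by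
  obtain ⟨top, h⟩ := h
  have hp := hF.proper
  have hs := hF.smooth_off
  refine ⟨?_, MorphismProperty.of_isPullback (P := @IsProper) h hp⟩
  have hrange : Set.range (Spec.map (CommRingCat.ofHom t)) ⊆
      F.off.ι.opensRange := by
    rw [Scheme.Opens.opensRange_ι]
    rintro _ ⟨z, rfl⟩
    show F.x ∉ (PrimeSpectrum.comap t z).asIdeal
    intro hx
    have h1 : t F.x ∈ z.asIdeal := hx
    exact z.isPrime.ne_top (Ideal.eq_top_of_isUnit_mem _ h1 (isUnit_iff_ne_zero.2 ht))
  let l := IsOpenImmersion.lift F.off.ι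
    (Spec.map (CommRingCat.ofHom t)) hrange
  have hl : l ≫ F.off.ι =
    Spec.map (CommRingCat.ofHom t) := IsOpenImmersion.lift_fac _ _ hrange
  have h2 := isPullback_morphismRestrict F.f F.off
  have h3 : IsPullback (h2.flip.lift top (str ≫ l) (by
      rw [Category.assoc, hl]
      exact h.w)) str (F.f ∣_ F.off) l := by
    refine IsPullback.of_right (h₁₂ := (F.f ⁻¹ᵁ F.off).ι) (v₁₃ := F.f)
      (h₂₂ := F.off.ι) ?_ ?_ h2.flip
    · rw [IsPullback.lift_fst, hl]
      exact h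
    · exact IsPullback.lift_snd _ _ _ _
  exact MorphismProperty.of_isPullback (P := @Smooth) h3 hs

end geometry

section purity

variable {Ω : Type u} [Field Ω] [CharZero Ω] [IsAlgClosed Ω]

instance {q c : ℕ} {R : Rep.{u, v} Ω} [h : FiniteDimensional Ω R.V] :
    FiniteDimensional Ω (twist q c R).V := h

lemma LocalField.one_lt_q (L : LocalField) : 1 < L.q := Finite.one_lt_card

/-- mw purity is preserved by comparison. -/
theorem Comparable.isPure {q : ℕ} (hq : 1 < q) {R R' : Rep.{u, v} Ω}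
    (hR : Comparable q R R') [FiniteDimensional Ω R'.V] {i : ℤ} (h' : R'.IsPure q i) :
    R.IsPure q i := by
  obtain ⟨e, h, c, he, hh, hc, h1, h2, h3, h4⟩ := hR
  let e' : R.V ≃ₗ[Ω] R'.V := LinearEquiv.ofBijective e he
  let h' : R'.V ≃ₗ[Ω] R'.V := LinearEquiv.ofBijective h hh
  have hpow : ∀ (k : ℕ) (x : R'.V), (h' ^ k) x = (h ^ k) x := by
    intro k
    induction k with
    | zero => intro x; rfl
    | succ k ih =>
      intro x
      rw [pow_succ' h, Module.End.mul_apply, ← ih, pow_succ']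
      rfl
  have key : Pool.Agent.V5helper87.LP.Comparable q
      (Pool.Agent.V5helper87.LP.Rep.mk R.V R.Φ R.N)
      (Pool.Agent.V5helper87.LP.Rep.mk R'.V R'.Φ R'.N) := by
    refine ⟨e', h', c, hc, fun x => h1 x, fun x => ?_, fun x => h3 x, fun x => h4 x⟩
    show h (R'.Φ x) = R'.Φ ((h' ^ q) x)
    rw [hpow]
    exact LinearMap.congr_fun h2 x
  haveI : FiniteDimensional Ω (Pool.Agent.V5helper87.LP.Rep.mk R'.V R'.Φ R'.N).V :=
    ‹FiniteDimensional Ω R'.V›
  exact key.isPure hq ‹_›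

/-- Purity and comparison after passing to powers of the Frobenius elements. -/
lemma PowComparable.isPure {q : ℕ} (hq : 1 < q) {R R' : Rep.{u, v} Ω} (h : PowComparable q R R')
    [FiniteDimensional Ω R'.V] (hR : R.IsLocal q) {i : ℤ} (hi : R'.IsPure q i) :
    R.IsPure q i := by
  obtain ⟨k, hk, hc⟩ := h
  have h1 : (pw k R').IsPure (q ^ k) i := isMWPure_pow hq hi hk
  haveI : FiniteDimensional Ω (pw k R').V := ‹FiniteDimensional Ω R'.V›
  have h2 : (pw k R).IsPure (q ^ k) i := hc.isPure (Nat.one_lt_pow hk.ne' hq) h1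
  exact isMWPure_of_pow hq hR hk h2

variable {T : NearData.{u, v} Ω} {ℓ : ℕ} {L : LocalField} {F : Fam L} {n : ℕ}

/-- Uniruled varieties. -/
lemma uniruled_pure (hT : T.IsEtale ℓ) (hB : CharZero L.K) (hp : L.p ≠ ℓ) (hmw : T.MW L n)
    (hn : 0 < n) {Y : Scheme.{0}} {str : Y ⟶ Spec (.of L.K)} (h1 : SmoothProper str)
    (h2 : SmoothOfRelativeDimension n str) (hu : IsUniruled L n str) (m : ℕ) :
    (T.H L str m).IsPure L.q m := by
  obtain ⟨s, k, a, c, Z, z, hz, hsum⟩ := hT.uniruled L hB hp n Y str hn h1 h2 hu m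
  haveI : ∀ i, FiniteDimensional Ω (T.H L (z i) (a i)).V := fun i =>
    hT.finite L (z i) hp (hz i).2.1 (a i)
  have hloc : ∀ i, (twist L.q (c i) (T.H L (z i) (a i))).IsLocal L.q := fun i =>
    isLocal_twist (hT.isLocal L (z i) hp (hz i).2.1 (a i)) (c i)
  refine hsum.pure L.one_lt_q (isLocal_dsum hloc) (dsum_pure L.one_lt_q hloc fun i => ?_)
  have h3 := hmw (k i) (Z i) (z i) (hz i).1 (hz i).2.1 (hz i).2.2.1 (a i)
  have h4 := twist_pure L.one_lt_q (hT.isLocal L (z i) hp (hz i).2.1 (a i)) h3 (c i)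
  have h5 := (hz i).2.2.2
  rwa [show ((a i : ℕ) : ℤ) + 2 * (c i : ℤ) = m by omega] at h4

/-- The terms of the weight spectral sequence. -/
lemma E₁_pure (hT : T.IsEtale ℓ) (hp : L.p ≠ ℓ) (hF : F.IsSemistable n) {r m : ℤ}
    (hst : ∀ I : Finset (Fin F.r), I.Nonempty → I.card ≤ n + 1 → ((I.card : ℤ) - 1 ≤ m ∧
      |r| ≤ (I.card : ℤ) - 1 ∧ Even ((I.card : ℤ) - 1 + r)) →
      (T.H L (F.stratumStr I) (m - ((I.card : ℤ) - 1)).toNat).IsPure L.q
        (m - ((I.card : ℤ) - 1)).toNat) :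
    (T.E₁ F n r m).IsPure L.q (m + r) := by
  haveI : Finite (NearData.Idx F n r m) := Subtype.finite
  have hfd : ∀ I : NearData.Idx F n r m, FiniteDimensional Ω
      (T.H L (F.stratumStr I.1) (m - ((I.1.card : ℤ) - 1)).toNat).V := fun I =>
    hT.finite L _ hp (stratum_smoothProper hF I.2.1 I.2.2.1) _
  have hl : ∀ I : NearData.Idx F n r m,
      (T.H L (F.stratumStr I.1) (m - ((I.1.card : ℤ) - 1)).toNat).IsLocal L.q := fun I =>
    hT.isLocal L _ hp (stratum_smoothProper hF I.2.1 I.2.2.1) _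
  have hloc : ∀ I : NearData.Idx F n r m,
      (twist L.q (((I.1.card : ℤ) - 1 + r) / 2).toNat
        (T.H L (F.stratumStr I.1) (m - ((I.1.card : ℤ) - 1)).toNat)).IsLocal L.q := fun I =>
    isLocal_twist (hl I) _
  haveI hfd' : ∀ I : NearData.Idx F n r m, FiniteDimensional Ω
      (twist L.q (((I.1.card : ℤ) - 1 + r) / 2).toNat
        (T.H L (F.stratumStr I.1) (m - ((I.1.card : ℤ) - 1)).toNat)).V := hfd
  refine dsum_pure L.one_lt_q hloc fun I => ?_
  have h3 := hst I.1 I.2.1 I.2.2.1 I.2.2.2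
  have h4 := twist_pure L.one_lt_q (hl I) h3 (((I.1.card : ℤ) - 1 + r) / 2).toNat
  obtain ⟨-, -, h5, h6, k, hk⟩ := I.2
  have h7 : -((I.1.card : ℤ) - 1) ≤ r := (abs_le.1 h6).1
  have e : (((m - ((I.1.card : ℤ) - 1)).toNat : ℕ) : ℤ) +
      2 * (((((I.1.card : ℤ) - 1 + r) / 2).toNat : ℕ) : ℤ) = m + r := by
    omega
  rwa [e] at h4

lemma E₁_finite (hT : T.IsEtale ℓ) (hp : L.p ≠ ℓ) (hF : F.IsSemistable n) (r m : ℤ) :
    FiniteDimensional Ω (T.E₁ F n r m).V ∧ (T.E₁ F n r m).IsLocal L.q := by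
  haveI : Finite (NearData.Idx F n r m) := Subtype.finite
  haveI hfd' : ∀ I : NearData.Idx F n r m, FiniteDimensional Ω
      (twist L.q (((I.1.card : ℤ) - 1 + r) / 2).toNat
        (T.H L (F.stratumStr I.1) (m - ((I.1.card : ℤ) - 1)).toNat)).V := fun I =>
    hT.finite L _ hp (stratum_smoothProper hF I.2.1 I.2.2.1) _
  exact ⟨instFiniteDimensionalVDsum, isLocal_dsum fun I =>
    isLocal_twist (hT.isLocal L _ hp (stratum_smoothProper hF I.2.1 I.2.2.1) _) _⟩

/-- The graded pieces of the monodromy filtration of the nearby fibre. -/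
lemma gr_pure (hT : T.IsEtale ℓ) (hB : CharZero L.K) (hp : L.p ≠ ℓ) (hF : F.IsSemistable n)
    (hst : ∀ I : Finset (Fin F.r), I.Nonempty → I.card ≤ n + 1 → ∀ m : ℕ,
      (T.H L (F.stratumStr I) m).IsPure L.q m) (m : ℕ) :
    ∃ M : ℤ → Submodule Ω (T.ψ F m).V, IsMonodromyFiltration (T.ψ F m).N M ∧
      ∀ r : ℤ, ∃ hM : Stab (T.ψ F m).arith (M (r - 1)) (M r), (sq _ hM).IsPure L.q (m + r) := by
  obtain ⟨hfd, hloc, -, M, hN, h⟩ := hT.nearby L hB hp n F hF m
  refine ⟨M, hN, fun r => ?_⟩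
  obtain ⟨G, hG, f, g, hf, hg, hfg, hhom⟩ := h r
  obtain ⟨a1, a2⟩ := E₁_finite hT hp hF (r + 1) (m - 1)
  obtain ⟨b1, b2⟩ := E₁_finite hT hp hF r m
  obtain ⟨c1, c2⟩ := E₁_finite hT hp hF (r - 1) (m + 1)
  have a3 := E₁_pure (r := r + 1) (m := m - 1) hT hp hF fun I h1 h2 _ => hst I h1 h2 _
  have b3 := E₁_pure (r := r) (m := m) hT hp hF fun I h1 h2 _ => hst I h1 h2 _
  have c3 := E₁_pure (r := r - 1) (m := m + 1) hT hp hF fun I h1 h2 _ => hst I h1 h2 _
  rw [show (m : ℤ) - 1 + (r + 1) = m + r by ring] at a3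
  rw [show (m : ℤ) + 1 + (r - 1) = m + r by ring] at c3
  obtain ⟨h1, hi1⟩ := hhom.iso
  obtain ⟨h2, hi2⟩ := hG.iso
  have hh := homology_pure L.one_lt_q a2 b2 c2 hf hg h1 a3 b3 c3
  have hG1 := hi1.isSummand'.pure L.one_lt_q (isLocal_sq b2 h1) hh
  haveI : FiniteDimensional Ω G.V := by
    obtain ⟨e, -⟩ := hi1
    exact FiniteDimensional.of_surjective e.toLinearMap e.surjective
  exact ⟨h2, hi2.isSummand.pure L.one_lt_q (hi1.isSummand'.isLocal (isLocal_sq b2 h1)) hG1⟩

lemma isMWPure_of_subsingleton {V : Type v} [AddCommGroup V] [Module Ω V] [Subsingleton V] (q : ℕ)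
    (i : ℤ) (Φ N : Module.End Ω V) : IsMWPure q i Φ N := by
  have h0 : ∀ (x : V) (S : Submodule Ω V), x ∈ S := fun x S => by
    rw [Subsingleton.elim x 0]
    exact S.zero_mem
  refine ⟨fun _ => ⊥, ⟨fun _ _ _ => le_rfl, ⟨0, rfl⟩, ⟨0, ?_⟩, fun _ _ _ => h0 _ _,
    fun _ _ _ _ => h0 _ _, fun _ y _ => ⟨0, h0 _ _, h0 _ _⟩⟩, fun _ _ _ => h0 _ _,
    fun _ _ x _ hx _ => absurd (h0 x _) hx⟩
  rw [eq_top_iff]
  intro x _
  exact h0 x _

/-- Elements of powers of the maximal ideal. -/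
lemma le_addVal {R : Type} [CommRing R] [IsDomain R] [IsDiscreteValuationRing R] {k : ℕ} {y : R}
    (hy : y ∈ maximalIdeal R ^ k) : (k : ℕ∞) ≤ IsDiscreteValuationRing.addVal R y := by
  obtain ⟨ϖ, hϖ⟩ := IsDiscreteValuationRing.exists_irreducible R
  rw [hϖ.maximalIdeal_eq, Ideal.span_singleton_pow, Ideal.mem_span_singleton] at hy
  have h1 := IsDiscreteValuationRing.addVal_le_iff_dvd.2 hy
  rwa [hϖ.addVal_pow] at h1

lemma Ext.p_eq {L L' : LocalField} (E : Ext L L') : L'.p = L.p := by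
  haveI : IsLocalHom E.ι := by
    refine ⟨fun a ha => ?_⟩
    rw [← IsDiscreteValuationRing.addVal_eq_zero_iff] at ha ⊢
    have h1 := E.val a
    unfold LocalField.val at h1
    rw [h1] at ha
    rcases mul_eq_zero.1 ha with h | h
    · exact absurd (by exact_mod_cast h) E.e_pos.ne'
    · exact h
  have hinj : Function.Injective (ResidueField.map E.ι) := RingHom.injective _
  haveI : CharP (ResidueField L.O) (ringChar (ResidueField L.O)) := ringChar.charP _
  haveI := charP_of_injective_ringHom hinj (ringChar (ResidueField L.O))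
  exact ringChar.eq (ResidueField L'.O) (ringChar (ResidueField L.O))

/-- The known cases of the conjecture for the strata. -/
lemma strata_pure (hT : T.IsEtale ℓ) (hB : CharZero L.K) (hp : L.p ≠ ℓ) (hF : F.IsSemistable n)
    (hst : ∀ I : Finset (Fin F.r), I.Nonempty → I.card ≤ n + 1 →
      n + 1 - I.card ≤ 2 ∨ (n + 1 - I.card = 3 ∧ IsUniruled L 3 (F.stratumStr I)) ∨
        ∀ m : ℕ, (T.H L (F.stratumStr I) m).IsPure L.q m) :
    ∀ I : Finset (Fin F.r), I.Nonempty → I.card ≤ n + 1 → ∀ m : ℕ,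
      (T.H L (F.stratumStr I) m).IsPure L.q m := by
  intro I hI hcard m
  have h1 := stratum_smoothProper hF hI hcard
  have h2 := hF.strata I hI hcard
  rcases hst I hI hcard with h | ⟨h, h'⟩ | h
  · exact hT.rapoportZink L hB hp _ _ _ (by omega) h1 h2 m
  · rw [h] at h2
    exact uniruled_pure hT hB hp (hT.rapoportZink L hB hp) (by norm_num) h1 h2 h' m
  · exact h m

/-- **The conjecture for the fibres close to a semistable fibre.** -/
theorem near_main (hT : T.IsEtale ℓ) (hB : CharZero L.K) (hp : L.p ≠ ℓ) (hF : F.IsSemistable n)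
    (hst : ∀ I : Finset (Fin F.r), I.Nonempty → I.card ≤ n + 1 →
      n + 1 - I.card ≤ 2 ∨ (n + 1 - I.card = 3 ∧ IsUniruled L 3 (F.stratumStr I)) ∨
        ∀ m : ℕ, (T.H L (F.stratumStr I) m).IsPure L.q m) :
    ∃ (S : Finset F.A) (v₀ : ℕ), ∀ (L' : LocalField) (E : Ext L L') (t : F.A →+* L'.K),
      (∀ a, t (F.φ a) = E.κ a) → F.CloseTo E S v₀ t → t F.x ≠ 0 →
      ∀ (X : Scheme.{0}) (str : X ⟶ Spec (.of L'.K)), F.FibreAt t str →
        ∀ m : ℕ, (T.H L' str m).IsPure L'.q m := by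
  classical
  have hst := strata_pure hT hB hp hF hst
  obtain ⟨S, v₁, htame⟩ := hT.tame L hB hp n F hF
  have hall : ∀ m : ℕ, ∃ v₀ : ℕ, ∀ e f v : ℕ, 0 < e → 0 < f → e * v₀ ≤ v →
      ((T.ψ F m).at e f v).IsPure (L.q ^ f) m := by
    intro m
    obtain ⟨hfd, hloc, -⟩ := hT.nearby L hB hp n F hF m
    obtain ⟨M, hM, hgr⟩ := gr_pure hT hB hp hF hst m
    have hst1 : ∀ r, Stab (T.ψ F m).arith (M (r - 1)) (M r) := fun r => (hgr r).choose
    refine near_all L.one_lt_q hloc.N hloc.T hloc.comm hM (fun r => (hst1 r).ΦC)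
      (fun r => (hst1 r).NC) (fun r => ?_)
    exact (hgr r).choose_spec
  choose w hw using hall
  refine ⟨insert F.x S, max v₁ (∑ m ∈ Finset.range (2 * n + 1), w m), ?_⟩
  intro L' E t ht hclose htx X str hX m
  set v₀ := max v₁ (∑ m ∈ Finset.range (2 * n + 1), w m) with hv₀
  have hclose' : F.CloseTo E S v₁ t := by
    intro a ha
    obtain ⟨y, hy, hu⟩ := hclose a (Finset.mem_insert_of_mem ha)
    exact ⟨y, Ideal.pow_le_pow_right (le_max_left _ _) hy, hu⟩
  obtain ⟨y, hy, u, hu⟩ := hclose F.x (Finset.mem_insert_self _ _)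
  have hdx : F.d F.x = 0 := by
    have : F.x ∈ RingHom.ker F.d := by
      rw [hF.ker_d]
      exact Ideal.mem_span_singleton_self _
    exact this
  rw [hdx, map_zero, sub_zero] at hu
  have hne : E.ι y * u ≠ 0 := by
    intro h0
    rw [h0, map_zero] at hu
    exact htx hu
  obtain ⟨v, hv⟩ : ∃ v : ℕ, L'.val (E.ι y * u) = v := by
    have h1 : L'.val (E.ι y * u) ≠ ⊤ := by
      unfold LocalField.val
      rw [Ne, IsDiscreteValuationRing.addVal_eq_top_iff]
      exact hne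
    obtain ⟨v, hv⟩ := ENat.ne_top_iff_exists.1 h1
    exact ⟨v, hv.symm⟩
  have hle : E.e * v₀ ≤ v := by
    have h1 := le_addVal hy
    have h2 : ((E.e * v₀ : ℕ) : ℕ∞) ≤ (v : ℕ∞) := by
      have h3 : L'.val (E.ι y * u) = L'.val (E.ι y) + L'.val u :=
        IsDiscreteValuationRing.addVal_mul
      rw [← hv, h3, E.val]
      push_cast
      calc (E.e : ℕ∞) * (v₀ : ℕ∞) ≤ (E.e : ℕ∞) * L.val y := mul_le_mul_right h1 _
        _ ≤ _ := le_self_add
    exact_mod_cast h2
  obtain ⟨hfd, -, hvan, -⟩ := hT.nearby L hB hp n F hF m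
  have hX' := fibre_smoothProper hF htx hX
  have hp' : L'.p ≠ ℓ := by
    rw [E.p_eq]
    exact hp
  have hcomp := htame L' E t ht hclose' _ v hu hv X str hX m
  haveI : FiniteDimensional Ω ((T.ψ F m).at E.e E.f v).V := hfd
  refine hcomp.isPure L'.one_lt_q (hT.isLocal L' str hp' hX' m) ?_
  rw [E.card]
  by_cases hm : 2 * n < m
  · haveI : Subsingleton ((T.ψ F m).at E.e E.f v).V := hvan hm
    exact isMWPure_of_subsingleton _ _ _ _
  · apply hw m E.e E.f v E.e_pos E.f_pos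
    refine le_trans ?_ hle
    apply Nat.mul_le_mul_left
    refine le_trans ?_ (le_max_right _ _)
    exact Finset.single_le_sum (f := w) (fun _ _ => Nat.zero_le _)
      (Finset.mem_range.2 (by omega))

end purity

end Pool.Agent.V5helper87.NF
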