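import Pool.Agent.V5helper87.NF.Pert

/-!
# The pencil of two commuting nilpotent operators: generic members are centred
-/

set_option autoImplicit false

namespace Pool.Agent.V5helper87.NF

open Module Pool.Agent.Y143 Pool.Agent.Y163.MW Pool.Agent.Y68.MW

universe u v

variable {K : Type u} [Field K] [CharZero K] {V : Type v} [AddCommGroup V] [Module K V]

section defo

variable {I : Type} [Fintype I] (b : Basis I K V) (r : I → ℤ) (T N : Module.End K V)

/-- The deformation of `N + part T`. -/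
noncomputable def defo (ε : K) : Module.End K V :=
  N + b.constr K fun i => ∑ j, (b.repr (T (b i)) j * ε ^ (r i - r j).toNat) • b j

lemma defo_b (ε : K) (i : I) : defo b r T N ε (b i) =
    N (b i) + ∑ j, (b.repr (T (b i)) j * ε ^ (r i - r j).toNat) • b j := by
  rw [defo, LinearMap.add_apply, Basis.constr_basis]

/-- The scaling operator. -/
noncomputable def scal (R : ℤ) (ε : K) : Module.End K V :=
  b.constr K fun i => ε ^ (R - r i).toNat • b i

lemma scal_b (R : ℤ) (ε : K) (i : I) : scal b r R ε (b i) = ε ^ (R - r i).toNat • b i := by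
  rw [scal, Basis.constr_basis]

lemma repr_scal (R : ℤ) (ε : K) (x : V) (i : I) :
    b.repr (scal b r R ε x) i = ε ^ (R - r i).toNat * b.repr x i := by
  classical
  conv_lhs => rw [← b.sum_repr x]
  rw [map_sum]
  have h1 : ∀ j, scal b r R ε (b.repr x j • b j) = (ε ^ (R - r j).toNat * b.repr x j) • b j := by
    intro j
    rw [map_smul, scal_b, smul_smul, mul_comm]
  rw [Finset.sum_congr rfl fun j _ => h1 j, Basis.repr_sum_self]

lemma scal_of_mem {R : ℤ} {ε : K} {ρ : ℤ} {x : V} (hx : x ∈ grb b r ρ) :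
    scal b r R ε x = ε ^ (R - ρ).toNat • x := by
  apply b.repr.injective
  ext i
  rw [repr_scal, map_smul, Finsupp.smul_apply, smul_eq_mul]
  by_cases h : r i = ρ
  · rw [h]
  · rw [(mem_grb_repr b r).1 hx i h, mul_zero, mul_zero]

lemma polyFam_defo [FiniteDimensional K V] : PolyFam (defo b r T N) := by
  intro x φ
  refine ⟨Polynomial.C (φ (N x)) + ∑ i, ∑ j, Polynomial.C (b.repr x i * (b.repr (T (b i)) j *
    φ (b j))) * Polynomial.X ^ (r i - r j).toNat, fun ε => ?_⟩
  rw [Polynomial.eval_add, Polynomial.eval_C, Polynomial.eval_finset_sum, defo,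
    LinearMap.add_apply, map_add]
  congr 1
  conv_lhs => rw [← b.sum_repr x]
  rw [map_sum, map_sum]
  refine Finset.sum_congr rfl fun i _ => ?_
  rw [map_smul, Basis.constr_basis, Finset.smul_sum, map_sum, Polynomial.eval_finset_sum]
  refine Finset.sum_congr rfl fun j _ => ?_
  rw [Polynomial.eval_mul, Polynomial.eval_C, Polynomial.eval_pow, Polynomial.eval_X, map_smul,
    map_smul, smul_eq_mul, smul_eq_mul]
  ring

variable {b r T N}
  (hNr : ∀ (ρ : ℤ) (x : V), x ∈ grb b r ρ → N x ∈ grb b r (ρ - 2))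
  (hTf : ∀ (ρ : ℤ) (x : V), x ∈ fil b r ρ → T x ∈ fil b r ρ)

include hTf in
lemma repr_T {i j : I} (h : r i < r j) : b.repr (T (b i)) j = 0 :=
  (mem_fil b r).1 (hTf (r i) _ (grb_fil b r (mem_grb b r i))) j h

include hTf in
lemma defo_zero : defo b r T N 0 = N + part b r T := by
  classical
  refine b.ext fun i => ?_
  rw [defo_b, LinearMap.add_apply, part_of_mem b r T (mem_grb b r i)]
  congr 1
  apply b.repr.injective
  ext j
  rw [Basis.repr_sum_self, repr_pr]
  split_ifs with h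
  · rw [h, sub_self, Int.toNat_zero, pow_zero, mul_one]
  · rcases lt_or_gt_of_ne h with h1 | h1
    · rw [zero_pow (by omega), mul_zero]
    · rw [repr_T hTf h1, zero_mul]

include hNr hTf in
lemma defo_scal {R : ℤ} (hR : ∀ i, r i ≤ R) {ε m : K} (hm : ε ^ 2 * m = 1) (x : V) :
    defo b r T N ε (scal b r R ε x) = scal b r R ε ((T + m • N) x) := by
  classical
  have h : defo b r T N ε ∘ₗ scal b r R ε = scal b r R ε ∘ₗ (T + m • N) := by
    refine b.ext fun i => ?_
    rw [LinearMap.comp_apply, LinearMap.comp_apply, scal_b, map_smul, defo_b, smul_add,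
      LinearMap.add_apply, LinearMap.smul_apply, map_add, map_smul,
      scal_of_mem b r (hNr _ _ (mem_grb b r i)), smul_smul, add_comm]
    congr 1
    · apply b.repr.injective
      ext j
      rw [repr_scal, map_smul, Finsupp.smul_apply, Basis.repr_sum_self, smul_eq_mul]
      rcases lt_or_ge (r i) (r j) with h1 | h1
      · rw [repr_T hTf h1]
        ring
      · have h2 := hR i
        have e : (R - r j).toNat = (R - r i).toNat + (r i - r j).toNat := by omega
        rw [e, pow_add]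
        ring
    · congr 1
      have h2 := hR i
      have e : (R - (r i - 2)).toNat = (R - r i).toNat + 2 := by omega
      rw [e, pow_add, mul_comm m, mul_assoc, hm, mul_one]
  exact LinearMap.congr_fun h x

include hNr hTf in
lemma defo_pow_scal {R : ℤ} (hR : ∀ i, r i ≤ R) {ε m : K} (hm : ε ^ 2 * m = 1) (a : ℕ) (x : V) :
    (defo b r T N ε ^ a) (scal b r R ε x) = scal b r R ε (((T + m • N) ^ a) x) := by
  induction a with
  | zero => rfl
  | succ a ih =>
    rw [pow_succ', Module.End.mul_apply, ih, defo_scal hNr hTf hR hm, pow_succ',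
      Module.End.mul_apply]

end defo

/-- **Generic members of the pencil are centred.** -/
theorem generic_centred [IsAlgClosed K] [FiniteDimensional K V] {W : ℤ → Submodule K V}
    (hW : DirectSum.IsInternal W) {N T : Module.End K V} (hNW : ∀ c, ∀ x ∈ W c, N x ∈ W (c - 2))
    (hTW : ∀ c, ∀ x ∈ W c, T x ∈ W (c - 2)) (hNT : ∀ x, N (T x) = T (N x))
    {M : ℤ → Submodule K V} (hM : IsMonodromyFiltrationOn ⊤ N M)
    (H1 : ∀ (ρ : ℤ) (a : ℕ) x, x ∈ M ρ → x ∈ W (ρ + a) → (T ^ a) x ∈ M (ρ - 1) → x ∈ M (ρ - 1))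
    (H2 : ∀ (ρ : ℤ) (a : ℕ) y, y ∈ M ρ → y ∈ W (ρ - a) →
      ∃ x ∈ M ρ, x ∈ W (ρ + a) ∧ y - (T ^ a) x ∈ M (ρ - 1)) :
    {m : K | ¬ Centred W (T + m • N)}.Finite := by
  classical
  obtain ⟨S⟩ := Pool.Agent.Y153.MW.stA K V W N hW hNW
  obtain ⟨e, h, H⟩ := Pool.Agent.Y664.MW.t_B2 K V W N S
  set r : (Σ s : S.ι, Fin (S.len s + 1)) → ℤ := fun p => (S.len p.1 : ℤ) - 2 * (p.2 : ℕ) with hr
  set t : (Σ s : S.ι, Fin (S.len s + 1)) → ℤ := fun p => S.top p.1 - 2 * (p.2 : ℕ) with ht
  set d : (Σ s : S.ι, Fin (S.len s + 1)) → ℤ := fun p => S.top p.1 - (S.len p.1 : ℤ) with hd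
  have hWt : ∀ c, W c = grb S.b t c := by
    intro c
    rw [gr_eq_span hW.submodule_iSupIndep S.b t (fun p => S.mem p.1 p.2) c,
      gr_eq_span (indep_grb S.b t) S.b t (fun p => mem_grb S.b t p) c]
  have hMf : ∀ s, M s = fil S.b r s := fun s =>
    Pool.Agent.Y68.MW.stD Pool.Agent.Y141.MW.stL K V N _ S.b r e h H M hM s
  have hNr : ∀ (ρ : ℤ) (x : V), x ∈ grb S.b r ρ → N x ∈ grb S.b r (ρ - 2) := by
    intro ρ x hx
    have hh : h = dop S.b r := S.b.ext fun p => by rw [H.wt, dop_b]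
    rw [mem_grb_iff] at hx ⊢
    have h1 := LinearMap.congr_fun H.hN x
    rw [LinearMap.sub_apply, Module.End.mul_apply, Module.End.mul_apply, LinearMap.smul_apply, hh,
      hx, map_smul, sub_eq_iff_eq_add, ← add_smul] at h1
    rw [h1]
    congr 1
    push_cast
    ring
  have hTc : ∀ (γ : ℤ) (x : V), x ∈ grb S.b t γ → T x ∈ grb S.b t (γ - 2) := by
    intro γ x hx
    rw [← hWt] at *
    exact hTW γ x hx
  have hTf : ∀ (ρ : ℤ) (x : V), x ∈ fil S.b r ρ → T x ∈ fil S.b r ρ := by
    intro ρ x hx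
    rw [← hMf] at *
    refine hM.functorial hM T (fun _ _ => trivial) one_ne_zero (fun x _ => ?_) ρ hx
    rw [one_smul, hNT]
  have htd : ∀ i, t i = r i + d i := by
    intro i
    simp only [ht, hr, hd]
    ring
  have hC : Centred (grb S.b d) (part S.b r T) := by
    refine part_centred hTc hTf htd (fun ρ a x hx hx' hx'' => ?_) (fun ρ a y hy hy' => ?_)
    · rw [← hMf] at *
      exact H1 ρ a x hx (by rw [hWt]; exact hx') hx''
    · rw [← hMf] at hy
      obtain ⟨x, hx, hx', hx''⟩ := H2 ρ a y hy (by rw [hWt]; exact hy')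
      refine ⟨x, by rw [← hMf]; exact hx, by rw [← hWt]; exact hx', by rw [← hMf]; exact hx''⟩
  have hcomm := part_comm hNr hNT
  have hsum : Centred W (N + part S.b r T) := by
    have h1 := centred_sum S (n := part S.b r T) (fun c x hx => part_grb hTc hx)
      (fun c x hx => part_mem hx) hcomm hC
    intro a
    have h2 := h1 a
    rwa [← ht, ← hWt, ← hWt] at h2
  -- a bound for the degrees
  obtain ⟨R, hR⟩ : ∃ R : ℤ, ∀ i, r i ≤ R := by
    obtain ⟨R, hR⟩ := (Set.finite_range r).bddAbove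
    exact ⟨R, fun i => hR ⟨i, rfl⟩⟩
  -- the bad parameters
  have hfin : {c | W c ≠ ⊥}.Finite := WellFoundedGT.finite_ne_bot_of_iSupIndep hW.submodule_iSupIndep
  let bad : ℕ → Set K := fun a => {ε : K | ¬ ∀ x ∈ W a, (defo S.b r T N ε ^ a) x = 0 → x = 0}
  have hbad : ∀ a, (bad a).Finite := by
    intro a
    refine PolyFam.finite_bad ((polyFam_defo S.b r T N).pow a) (W a) ?_
    rw [defo_zero hTf]
    exact (hsum a).1
  let Bad : Set K := ⋃ c ∈ {c : ℤ | W c ≠ ⊥}, bad c.toNat
  have hBad : Bad.Finite := hfin.biUnion fun c _ => hbad _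
  have hfin2 : (insert (0 : K) ((fun ε => (ε ^ 2)⁻¹) '' Bad)).Finite := (hBad.image _).insert 0
  refine hfin2.subset ?_
  intro m hm
  rw [Set.mem_setOf_eq] at hm
  by_contra hnot
  rw [Set.mem_insert_iff, not_or] at hnot
  obtain ⟨hm0, hm1⟩ := hnot
  obtain ⟨ε, hε⟩ := IsAlgClosed.exists_pow_nat_eq m⁻¹ (n := 2) (by norm_num)
  have hε0 : ε ≠ 0 := by
    rintro rfl
    rw [zero_pow (by norm_num)] at hε
    exact inv_ne_zero hm0 hε.symm
  have hεm : ε ^ 2 * m = 1 := by rw [hε, inv_mul_cancel₀ hm0]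
  have hgood : ∀ c : ℤ, W c ≠ ⊥ → ε ∉ bad c.toNat := by
    intro c hc hb
    apply hm1
    exact ⟨ε, Set.mem_biUnion hc hb, by simp [hε]⟩
  have hscal : Function.Injective (scal S.b r R ε) := by
    intro x y hxy
    apply S.b.repr.injective
    ext i
    have h1 := congrArg (fun z => S.b.repr z i) hxy
    simp only [repr_scal] at h1
    exact mul_left_cancel₀ (pow_ne_zero _ hε0) h1
  have hinj : ∀ (a : ℕ), ∀ x ∈ W a, ((T + m • N) ^ a) x = 0 → x = 0 := by
    intro a x hx hx0
    by_cases hWa : W (a : ℤ) = ⊥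
    · rw [hWa, Submodule.mem_bot] at hx
      exact hx
    · have h1 := hgood a hWa
      rw [Int.toNat_natCast] at h1
      simp only [bad, Set.mem_setOf_eq, not_not] at h1
      apply hscal
      rw [map_zero]
      apply h1
      · rw [hWt, mem_grb_repr] at hx ⊢
        intro i hi
        rw [repr_scal, hx i hi, mul_zero]
      · rw [defo_pow_scal hNr hTf hR hεm, hx0, map_zero]
  apply hm
  intro a
  refine ⟨hinj a, ?_⟩
  -- surjectivity by dimensions
  have hTm : ∀ c, ∀ x ∈ W c, (T + m • N) x ∈ W (c - 2) := fun c x hx =>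
    Submodule.add_mem _ (hTW c x hx) (Submodule.smul_mem _ _ (hNW c x hx))
  have hpow : ∀ (A : Module.End K V), (∀ c, ∀ x ∈ W c, A x ∈ W (c - 2)) → ∀ (k : ℕ) (c : ℤ) x,
      x ∈ W c → (A ^ k) x ∈ W (c - 2 * k) := by
    intro A hA k
    induction k with
    | zero => intro c x hx; simpa using hx
    | succ k ih =>
      intro c x hx
      rw [pow_succ', Module.End.mul_apply]
      have := hA _ _ (ih c x hx)
      rwa [show c - 2 * (k : ℤ) - 2 = c - 2 * ((k + 1 : ℕ) : ℤ) by push_cast; ring] at this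
  have hpow' : ∀ (A : Module.End K V), (∀ c, ∀ x ∈ W c, A x ∈ W (c - 2)) → ∀ x ∈ W (a : ℤ),
      (A ^ a) x ∈ W (-(a : ℤ)) := by
    intro A hA x hx
    have := hpow A hA a a x hx
    rwa [show (a : ℤ) - 2 * a = -a by ring] at this
  have hNn : ∀ c, ∀ x ∈ W c, (N + part S.b r T) x ∈ W (c - 2) := by
    intro c x hx
    refine Submodule.add_mem _ (hNW c x hx) ?_
    rw [hWt] at hx ⊢
    exact part_grb hTc hx
  -- the two maps
  let f₀ : W (a : ℤ) →ₗ[K] W (-(a : ℤ)) := ((N + part S.b r T) ^ a).restrict (hpow' _ hNn)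
  let f : W (a : ℤ) →ₗ[K] W (-(a : ℤ)) := ((T + m • N) ^ a).restrict (hpow' _ hTm)
  have h₀ : Function.Bijective f₀ := by
    constructor
    · rw [← LinearMap.ker_eq_bot, LinearMap.ker_eq_bot']
      intro x hx
      exact Subtype.ext ((hsum a).1 x x.2 (congrArg Subtype.val hx))
    · intro y
      obtain ⟨x, hx, hx'⟩ := (hsum a).2 y y.2
      exact ⟨⟨x, hx⟩, Subtype.ext hx'⟩
  have hdim : finrank K (W (a : ℤ)) = finrank K (W (-(a : ℤ))) :=
    (LinearEquiv.ofBijective f₀ h₀).finrank_eq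
  have hfi : Function.Injective f := by
    rw [← LinearMap.ker_eq_bot, LinearMap.ker_eq_bot']
    intro x hx
    exact Subtype.ext (hinj a x x.2 (congrArg Subtype.val hx))
  have hfs : Function.Surjective f := (LinearMap.injective_iff_surjective_of_finrank_eq_finrank
    hdim).1 hfi
  intro y hy
  obtain ⟨x, hx⟩ := hfs ⟨y, hy⟩
  exact ⟨x, x.2, congrArg Subtype.val hx⟩

end Pool.Agent.V5helper87.NF
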