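import Pool.Agent.V5helper87.NF.Cat
import Pool.Agent.V5helper87.NF.Pencil

/-!
# Purity of the generic members of the pencil
-/

set_option autoImplicit false

namespace Pool.Agent.V5helper87.NF

open Module Pool.Agent.Y143 Pool.Agent.Y163.MW Pool.Agent.Y136.UB
open Pool.Agent.V5helper87.LP (SubQ indQ clQ clQ_eq_zero clQ_surj clQ_eigen indQ_clQ eigen_of_pow
  isMonodromyFiltration_smul)

universe u v

variable {Ω : Type u} [Field Ω] [CharZero Ω] [IsAlgClosed Ω] {V : Type v} [AddCommGroup V]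
  [Module Ω V] {q : ℕ}

/-- The members of the pencil `T + m N` are mw pure, for all but finitely many `m`, if the graded
pieces of the monodromy filtration of `N` are mw pure for `T`, of weights moved by the index. -/
theorem near_pure [FiniteDimensional Ω V] (hq : 1 < q) {i : ℤ} {Φ N T : Module.End Ω V}
    (hN : ∀ x, N (Φ x) = (q : Ω) • Φ (N x)) (hT : ∀ x, T (Φ x) = (q : Ω) • Φ (T x))
    (hNT : ∀ x, N (T x) = T (N x)) {M : ℤ → Submodule Ω V} (hM : IsMonodromyFiltration N M)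
    (hMΦ : ∀ r, ∀ x ∈ M r, Φ x ∈ M r) (hMT : ∀ r, ∀ x ∈ M r, T x ∈ M r)
    (hgr : ∀ r : ℤ, IsMWPure q (i + r) (indQ (M r) (M (r - 1)) Φ (hMΦ r) (hMΦ (r - 1)))
      (indQ (M r) (M (r - 1)) T (hMT r) (hMT (r - 1)))) :
    {m : Ω | ¬ IsMWPure q i Φ (T + m • N)}.Finite := by
  have hgr' : ∀ r : ℤ, HasWts q (indQ (M r) (M (r - 1)) Φ (hMΦ r) (hMΦ (r - 1))) ∧
      Centred (fun c => wtsp q (indQ (M r) (M (r - 1)) Φ (hMΦ r) (hMΦ (r - 1))) (i + r + c))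
        (indQ (M r) (M (r - 1)) T (hMT r) (hMT (r - 1))) := by
    intro r
    haveI : FiniteDimensional Ω (SubQ (M r) (M (r - 1))) := Module.Finite.quotient Ω _
    exact (isMWPure_iff hq (local_indQ hT _ _ _ _)).1 (hgr r)
  have hw : HasWts q Φ := by
    intro α x h0 hα
    obtain ⟨a, ha⟩ := hM.bot
    obtain ⟨b, hb⟩ := hM.top
    have key : ∀ n : ℕ, x ∈ M (a + n) → ∃ s, x ∈ M s ∧ x ∉ M (s - 1) := by
      intro n
      induction n with
      | zero =>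
        intro h
        rw [Nat.cast_zero, add_zero, ha, Submodule.mem_bot] at h
        exact absurd h h0
      | succ n ih =>
        intro h
        by_cases h1 : x ∈ M (a + n)
        · exact ih h1
        · refine ⟨_, h, ?_⟩
          rwa [show a + ((n + 1 : ℕ) : ℤ) - 1 = a + n by push_cast; ring]
    have hx : x ∈ M (a + (b - a).toNat) := by
      apply hM.mono (show b ≤ a + ((b - a).toNat : ℤ) by omega)
      rw [hb]
      trivial
    obtain ⟨s, hs, hs'⟩ := key _ hx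
    refine (hgr' s).1 α (clQ _ _ ⟨x, hs⟩) (fun h => hs' ((clQ_eq_zero _ _ _).1 h)) ?_
    rw [clQ_eigen, hα, sub_self]
    exact Submodule.zero_mem _
  set W : ℤ → Submodule Ω V := fun c => wtsp q Φ (i + c) with hW
  have hint : DirectSum.IsInternal W :=
    DirectSum.isInternal_submodule_of_iSupIndep_of_iSup_eq_top (indep_shift (indep_wtsp hq Φ) i)
      (iSup_shift (iSup_wtsp hw) i)
  have hdeg : ∀ {A : Module.End Ω V}, (∀ x, A (Φ x) = (q : Ω) • Φ (A x)) →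
      ∀ c, ∀ x ∈ W c, A x ∈ W (c - 2) := by
    intro A hA c x hx
    have := wtsp_N hq hA hx
    rwa [show i + c - 2 = i + (c - 2) by ring] at this
  have key := generic_centred hint (hdeg hN) (hdeg hT) hNT hM.on (T := T) ?_ ?_
  · refine key.subset ?_
    intro m hm hc
    apply hm
    rw [isMWPure_iff hq]
    · exact ⟨hw, hc⟩
    · intro x
      rw [LinearMap.add_apply, LinearMap.add_apply, LinearMap.smul_apply, LinearMap.smul_apply, hN,
        hT, map_add, map_smul, smul_add, smul_comm m]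
  · intro ρ a x hx hxW hxa
    have h1 := clQ_mem (hMΦ ρ) (hMΦ (ρ - 1)) hq hw hx hxW
    have h2 : clQ (M ρ) (M (ρ - 1)) ⟨x, hx⟩ = 0 := by
      apply ((hgr' ρ).2 a).1
      · rw [show i + (ρ + (a : ℤ)) = i + ρ + a by ring] at h1
        exact h1
      · obtain ⟨h3, h4⟩ := indQ_pow (M ρ) (M (ρ - 1)) T (hMT ρ) (hMT (ρ - 1)) a ⟨x, hx⟩
        rw [h4, clQ_eq_zero]
        exact hxa
    exact (clQ_eq_zero _ _ _).1 h2
  · intro ρ a y hy hyW
    have h1 := clQ_mem (hMΦ ρ) (hMΦ (ρ - 1)) hq hw hy hyW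
    rw [show i + (ρ - (a : ℤ)) = i + ρ + -(a : ℤ) by ring] at h1
    obtain ⟨z, hz, hz'⟩ := ((hgr' ρ).2 a).2 _ h1
    obtain ⟨x, hx, hxw, rfl⟩ := exists_clQ (hMΦ ρ) (hMΦ (ρ - 1)) hq hw hz
    refine ⟨x, hx, ?_, ?_⟩
    · show x ∈ wtsp q Φ (i + (ρ + a))
      rwa [← add_assoc]
    · obtain ⟨h3, h4⟩ := indQ_pow (M ρ) (M (ρ - 1)) T (hMT ρ) (hMT (ρ - 1)) a ⟨x, hx⟩
      rw [h4] at hz'
      have h5 : clQ (M ρ) (M (ρ - 1)) (⟨y, hy⟩ - ⟨(T ^ a) x, h3⟩) = 0 := by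
        have : clQ (M ρ) (M (ρ - 1)) (⟨y, hy⟩ - ⟨(T ^ a) x, h3⟩) =
          clQ (M ρ) (M (ρ - 1)) ⟨y, hy⟩ - clQ (M ρ) (M (ρ - 1)) ⟨(T ^ a) x, h3⟩ := rfl
        rw [this, ← hz', sub_self]
      exact (clQ_eq_zero _ _ _).1 h5

section pow

omit [IsAlgClosed Ω] in
lemma weil_pow {w : ℤ} {α : Ω} (h : IsWeilNumber q w α) (k : ℕ) :
    IsWeilNumber (q ^ k) w (α ^ k) := by
  obtain ⟨h1, h2⟩ := h.pow k
  refine ⟨h1, fun z hz => ?_⟩
  rw [h2 z hz]
  push_cast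
  rw [← Real.rpow_natCast, ← Real.rpow_mul (by positivity)]
  congr 1
  ring

lemma isMWPure_pow [FiniteDimensional Ω V] (hq : 1 < q) {i : ℤ} {Φ N : Module.End Ω V}
    (h : IsMWPure q i Φ N) {k : ℕ} (hk : 0 < k) :
    IsMWPure (q ^ k) i (Φ ^ k) N := by
  obtain ⟨M, hM, hMΦ, hMw⟩ := h
  have hst : ∀ (n : ℕ) a x, x ∈ M a → (Φ ^ n) x ∈ M a := by
    intro n
    induction n with
    | zero => intro a x hx; exact hx
    | succ n ih => intro a x hx; rw [pow_succ', Module.End.mul_apply]; exact hMΦ a _ (ih a x hx)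
  refine ⟨M, hM, fun a x hx => hst k a x hx, fun a α x hx hx' hα => ?_⟩
  -- an eigenvector of the induced operator
  set φ := indQ (M a) (M (a - 1)) Φ (hMΦ a) (hMΦ (a - 1)) with hφ
  haveI : FiniteDimensional Ω (SubQ (M a) (M (a - 1))) := Module.Finite.quotient Ω _
  have h1 : (φ ^ k) (clQ _ _ ⟨x, hx⟩) = α • clQ _ _ ⟨x, hx⟩ := by
    obtain ⟨h3, h4⟩ := indQ_pow (M a) (M (a - 1)) Φ (hMΦ a) (hMΦ (a - 1)) k ⟨x, hx⟩
    rw [h4, ← sub_eq_zero]
    exact (clQ_eq_zero (M a) (M (a - 1)) (⟨(Φ ^ k) x, h3⟩ - α • ⟨x, hx⟩)).2 hα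
  obtain ⟨ν, y, hy, hνy, hν⟩ := eigen_of_pow hk
    (fun h0 => hx' ((clQ_eq_zero _ _ _).1 h0)) h1
  obtain ⟨z, rfl⟩ := clQ_surj _ _ y
  have h2 := hMw a ν z z.2 (fun h => hy ((clQ_eq_zero _ _ _).2 h)) ((clQ_eigen _ _ _ _ _ ν z).1 hνy)
  rw [← hν]
  exact weil_pow h2 k

lemma isMWPure_of_pow (hq : 1 < q) {i : ℤ} {Φ N : Module.End Ω V}
    (hN : ∀ x, N (Φ x) = (q : Ω) • Φ (N x)) {k : ℕ} (hk : 0 < k)
    (h : IsMWPure (q ^ k) i (Φ ^ k) N) : IsMWPure q i Φ N := by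
  obtain ⟨M, hM, hMΦ, hMw⟩ := h
  have hq0 : (q : Ω) ≠ 0 := Nat.cast_ne_zero.2 (by omega)
  have hst : ∀ a x, x ∈ M a → Φ x ∈ M a := fun a x hx =>
    hM.on.functorial hM.on Φ (fun _ _ => trivial) hq0 (fun x _ => hN x) a hx
  refine ⟨M, hM, hst, fun a α x hx hx' hα => ?_⟩
  have hpow : ∀ n : ℕ, (Φ ^ n) x - α ^ n • x ∈ M (a - 1) := by
    intro n
    induction n with
    | zero => simp
    | succ n ih =>
      rw [pow_succ', Module.End.mul_apply]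
      have h1 := hst _ _ ih
      rw [map_sub, map_smul] at h1
      have h2 := (M (a - 1)).smul_mem (α ^ n) hα
      have h3 := (M (a - 1)).add_mem h1 h2
      rwa [smul_sub, smul_smul, sub_add_sub_cancel, ← pow_succ] at h3
  have h1 := hMw a (α ^ k) x hx hx' (hpow k)
  exact (h1.of_pow_base).of_pow hk

end pow

/-- **Uniform version.** -/
theorem near_all [FiniteDimensional Ω V] (hq : 1 < q) {i : ℤ} {Φ N T : Module.End Ω V}
    (hN : ∀ x, N (Φ x) = (q : Ω) • Φ (N x)) (hT : ∀ x, T (Φ x) = (q : Ω) • Φ (T x))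
    (hNT : ∀ x, N (T x) = T (N x)) {M : ℤ → Submodule Ω V} (hM : IsMonodromyFiltration N M)
    (hMΦ : ∀ r, ∀ x ∈ M r, Φ x ∈ M r) (hMT : ∀ r, ∀ x ∈ M r, T x ∈ M r)
    (hgr : ∀ r : ℤ, IsMWPure q (i + r) (indQ (M r) (M (r - 1)) Φ (hMΦ r) (hMΦ (r - 1)))
      (indQ (M r) (M (r - 1)) T (hMT r) (hMT (r - 1)))) :
    ∃ v₀ : ℕ, ∀ e f m : ℕ, 0 < e → 0 < f → e * v₀ ≤ m →
      IsMWPure (q ^ f) i (Φ ^ f) ((e : Ω) • T + (m : Ω) • N) := by
  have hfin := near_pure hq hN hT hNT hM hMΦ hMT hgr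
  have hfin2 : {ρ : ℚ | ¬ IsMWPure q i Φ (T + (ρ : Ω) • N)}.Finite :=
    hfin.preimage (Rat.cast_injective.injOn (s := _))
  obtain ⟨b, hb⟩ := hfin2.bddAbove
  obtain ⟨v₀, hv⟩ := exists_nat_gt b
  refine ⟨v₀, fun e f m he hf hm => ?_⟩
  have he' : (0 : ℚ) < e := by exact_mod_cast he
  have h1 : IsMWPure q i Φ (T + (((m : ℚ) / e : ℚ) : Ω) • N) := by
    by_contra hno
    have h2 := hb hno
    have h3 : (v₀ : ℚ) ≤ (m : ℚ) / e := by
      rw [le_div_iff₀ he', mul_comm]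
      exact_mod_cast hm
    linarith
  apply isMWPure_pow hq _ hf
  obtain ⟨M', hM', hMΦ', hMw'⟩ := h1
  have he0 : (e : Ω) ≠ 0 := Nat.cast_ne_zero.2 he.ne'
  refine ⟨M', ?_, hMΦ', hMw'⟩
  have h4 := isMonodromyFiltration_smul hM' he0
  have h5 : (e : Ω) • (T + (((m : ℚ) / e : ℚ) : Ω) • N) = (e : Ω) • T + (m : Ω) • N := by
    rw [smul_add, smul_smul]
    congr 2
    push_cast
    field_simp
  rwa [h5] at h4

end Pool.Agent.V5helper87.NF
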