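import Mathlib

/-!
# Families of linear maps which depend polynomially on a parameter
-/

set_option autoImplicit false

namespace Pool.Agent.V5helper87.NF

open Module

universe u v v' v''

variable {K : Type u} [Field K] {V : Type v} [AddCommGroup V] [Module K V]
  {V' : Type v'} [AddCommGroup V'] [Module K V'] {V'' : Type v''} [AddCommGroup V''] [Module K V'']

/-- The family `A ε` of linear maps depends polynomially on `ε`. -/
def PolyFam (A : K → V →ₗ[K] V') : Prop :=
  ∀ (x : V) (φ : V' →ₗ[K] K), ∃ p : Polynomial K, ∀ ε, φ (A ε x) = p.eval ε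

lemma PolyFam.const (A : V →ₗ[K] V') : PolyFam (fun _ : K => A) := fun x φ =>
  ⟨Polynomial.C (φ (A x)), fun ε => by rw [Polynomial.eval_C]⟩

lemma PolyFam.comp [FiniteDimensional K V'] {A : K → V' →ₗ[K] V''} {B : K → V →ₗ[K] V'}
    (hA : PolyFam A) (hB : PolyFam B) : PolyFam (fun ε => A ε ∘ₗ B ε) := by
  intro x φ
  let b := finBasis K V'
  choose p hp using fun j => hB x (b.coord j)
  choose p' hp' using fun j => hA (b j) φ
  refine ⟨∑ j, p j * p' j, fun ε => ?_⟩
  rw [LinearMap.comp_apply, Polynomial.eval_finset_sum]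
  conv_lhs => rw [← b.sum_repr (B ε x)]
  rw [map_sum, map_sum]
  refine Finset.sum_congr rfl fun j _ => ?_
  rw [map_smul, map_smul, smul_eq_mul, Polynomial.eval_mul, ← hp, ← hp', Basis.coord_apply]

lemma PolyFam.pow [FiniteDimensional K V] {A : K → Module.End K V} (hA : PolyFam A) (a : ℕ) :
    PolyFam (fun ε => (A ε ^ a : Module.End K V)) := by
  induction a with
  | zero => exact PolyFam.const _
  | succ a ih =>
    have := hA.comp ih
    intro x φ
    obtain ⟨p, hp⟩ := this x φ
    refine ⟨p, fun ε => ?_⟩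
    rw [← hp]
    show φ ((A ε ^ (a + 1)) x) = φ ((A ε * A ε ^ a) x)
    rw [pow_succ']

lemma PolyFam.det [FiniteDimensional K V] {A : K → Module.End K V} (hA : PolyFam A) :
    ∃ p : Polynomial K, ∀ ε, LinearMap.det (A ε) = p.eval ε := by
  classical
  let b := finBasis K V
  choose p hp using fun (i j : Fin (finrank K V)) => hA (b j) (b.coord i)
  refine ⟨Matrix.det (Matrix.of p), fun ε => ?_⟩
  rw [← LinearMap.det_toMatrix b]
  have h := RingHom.map_det (Polynomial.evalRingHom ε) (Matrix.of p)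
  rw [Polynomial.coe_evalRingHom] at h
  rw [h]
  congr 1
  ext i j
  rw [LinearMap.toMatrix_apply, RingHom.mapMatrix_apply, Matrix.map_apply, Matrix.of_apply,
    Polynomial.coe_evalRingHom, ← hp, Basis.coord_apply]

/-- If `A 0` is injective on a subspace, then so is `A ε` for all but finitely many `ε`. -/
theorem PolyFam.finite_bad [FiniteDimensional K V] [FiniteDimensional K V'] {A : K → V →ₗ[K] V'}
    (hA : PolyFam A) (U : Submodule K V) (h0 : ∀ x ∈ U, A 0 x = 0 → x = 0) :
    {ε : K | ¬ ∀ x ∈ U, A ε x = 0 → x = 0}.Finite := by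
  have hinj : LinearMap.ker (A 0 ∘ₗ U.subtype) = ⊥ := by
    rw [LinearMap.ker_eq_bot']
    intro x hx
    exact Subtype.ext (h0 x x.2 hx)
  obtain ⟨L, hL⟩ := LinearMap.exists_leftInverse_of_injective _ hinj
  have hB : PolyFam (fun ε => L ∘ₗ (A ε ∘ₗ U.subtype)) :=
    (PolyFam.const L).comp (hA.comp (PolyFam.const U.subtype))
  obtain ⟨p, hp⟩ := PolyFam.det (A := fun ε => (L ∘ₗ (A ε ∘ₗ U.subtype) : Module.End K U)) hB
  have hp0 : p ≠ 0 := by
    rintro rfl
    have h1 := hp 0
    rw [Polynomial.eval_zero, hL] at h1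
    have h2 : LinearMap.det (LinearMap.id : Module.End K U) = 1 := LinearMap.det_id
    rw [h2] at h1
    exact one_ne_zero h1
  refine (Polynomial.finite_setOf_isRoot hp0).subset ?_
  intro ε hε
  rw [Set.mem_setOf_eq] at hε ⊢
  by_contra hroot
  apply hε
  intro x hx hx0
  have h1 : LinearMap.det (L ∘ₗ (A ε ∘ₗ U.subtype) : Module.End K U) ≠ 0 := by
    rw [hp]
    exact hroot
  have h2 : (L ∘ₗ (A ε ∘ₗ U.subtype) : Module.End K U) ⟨x, hx⟩ = 0 := by
    show L (A ε x) = 0
    rw [hx0, map_zero]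
  by_contra hxne
  have h3 : (⟨x, hx⟩ : U) ≠ 0 := fun h => hxne (congrArg Subtype.val h)
  apply h3
  have h4 := LinearMap.ker_eq_bot.1 (LinearMap.isUnit_iff_ker_eq_bot _ |>.1
    ((LinearMap.isUnit_iff_isUnit_det _).2 (isUnit_iff_ne_zero.2 h1)))
  exact h4 (by rw [h2, map_zero])

end Pool.Agent.V5helper87.NF
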