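import Pool.Agent.V5helper87.NF.Sum
import Pool.Agent.V5helper87.NF.Poly

/-!
# The pencil of two commuting nilpotent operators

Let `N` and `T` be commuting operators of degree `-2` of a graded space. If `T` induces a centred
operator on the graded pieces of the monodromy filtration of `N`, with centre moved by the index, then
`T + m N` is centred for all but finitely many `m`.
-/

set_option autoImplicit false

namespace Pool.Agent.V5helper87.NF

open Module Pool.Agent.Y143 Pool.Agent.Y163.MW Pool.Agent.Y68.MW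

universe u v

variable {K : Type u} [Field K] [CharZero K] {V : Type v} [AddCommGroup V] [Module K V]

section pr

variable {I : Type} [Fintype I] (b : Basis I K V) (r : I → ℤ)

lemma mem_grb_repr {ρ : ℤ} {x : V} : x ∈ grb b r ρ ↔ ∀ i, r i ≠ ρ → b.repr x i = 0 := by
  constructor
  · intro hx i hi
    by_contra h0
    have h2 := repr_dop b r x i
    rw [dop_grb b r hx, map_smul, Finsupp.smul_apply, smul_eq_mul] at h2
    have h3 := mul_right_cancel₀ h0 h2
    exact hi (by exact_mod_cast h3.symm)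
  · intro h
    rw [← b.sum_repr x]
    refine Submodule.sum_mem _ fun p _ => ?_
    by_cases hp : r p = ρ
    · refine Submodule.smul_mem _ _ ?_
      rw [← hp]
      exact mem_grb b r p
    · rw [h p hp, zero_smul]
      exact Submodule.zero_mem _

/-- The projection to the part of degree `ρ`. -/
noncomputable def pr (ρ : ℤ) : Module.End K V := b.constr K fun i => if r i = ρ then b i else 0

lemma pr_b (ρ : ℤ) (i : I) : pr b r ρ (b i) = if r i = ρ then b i else 0 := by
  rw [pr, Basis.constr_basis]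

lemma repr_pr (ρ : ℤ) (x : V) (i : I) :
    b.repr (pr b r ρ x) i = if r i = ρ then b.repr x i else 0 := by
  classical
  have h : pr b r ρ x = ∑ i, (if r i = ρ then b.repr x i else 0) • b i := by
    conv_lhs => rw [← b.sum_repr x]
    rw [map_sum]
    refine Finset.sum_congr rfl fun j _ => ?_
    rw [map_smul, pr_b]
    split_ifs <;> simp
  rw [h, Basis.repr_sum_self]

lemma pr_mem (ρ : ℤ) (x : V) : pr b r ρ x ∈ grb b r ρ := by
  rw [mem_grb_repr]
  intro i hi
  rw [repr_pr, if_neg hi]

lemma pr_of_mem {ρ : ℤ} {x : V} (hx : x ∈ grb b r ρ) : pr b r ρ x = x := by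
  apply b.repr.injective
  ext i
  rw [repr_pr]
  split_ifs with h
  · rfl
  · exact ((mem_grb_repr b r).1 hx i h).symm

lemma pr_of_mem_ne {ρ ρ' : ℤ} {x : V} (hx : x ∈ grb b r ρ) (h : ρ ≠ ρ') : pr b r ρ' x = 0 := by
  apply b.repr.injective
  ext i
  rw [repr_pr, map_zero, Finsupp.zero_apply]
  split_ifs with h'
  · exact (mem_grb_repr b r).1 hx i (by rw [h']; exact h.symm)
  · rfl

lemma sum_pr (x : V) : ∑ ρ ∈ Finset.univ.image r, pr b r ρ x = x := by
  classical
  apply b.repr.injective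
  ext i
  rw [map_sum, Finsupp.finsetSum_apply]
  rw [Finset.sum_eq_single (r i)]
  · rw [repr_pr, if_pos rfl]
  · intro ρ _ hρ
    rw [repr_pr, if_neg (Ne.symm hρ)]
  · intro h
    exact absurd (Finset.mem_image_of_mem r (Finset.mem_univ i)) h

lemma pr_grb (c : I → ℤ) {γ : ℤ} {x : V} (hx : x ∈ grb b c γ) (ρ : ℤ) : pr b r ρ x ∈ grb b c γ := by
  rw [mem_grb_repr] at *
  intro i hi
  rw [repr_pr, hx i hi]
  split_ifs <;> rfl

lemma grb_fil {ρ : ℤ} {x : V} (hx : x ∈ grb b r ρ) : x ∈ fil b r ρ := by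
  rw [mem_fil]
  intro i hi
  exact (mem_grb_repr b r).1 hx i hi.ne'

lemma eq_zero_of_grb_fil {ρ : ℤ} {x : V} (hx : x ∈ grb b r ρ) (hx' : x ∈ fil b r (ρ - 1)) :
    x = 0 := by
  apply b.repr.injective
  ext i
  rw [map_zero, Finsupp.zero_apply]
  by_cases h : r i = ρ
  · exact (mem_fil b r).1 hx' i (by omega)
  · exact (mem_grb_repr b r).1 hx i h

lemma sub_pr_fil {ρ : ℤ} {x : V} (hx : x ∈ fil b r ρ) : x - pr b r ρ x ∈ fil b r (ρ - 1) := by
  rw [mem_fil]
  intro i hi
  rw [map_sub, Finsupp.sub_apply, repr_pr]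
  split_ifs with h
  · rw [sub_self]
  · rw [sub_zero]
    exact (mem_fil b r).1 hx i (by omega)

end pr

section parts

variable {I : Type} [Fintype I] (b : Basis I K V) (r c : I → ℤ) (T : Module.End K V)

/-- The part of degree zero of `T`. -/
noncomputable def part : Module.End K V := b.constr K fun i => pr b r (r i) (T (b i))

lemma part_of_mem {ρ : ℤ} {x : V} (hx : x ∈ grb b r ρ) : part b r T x = pr b r ρ (T x) := by
  have h : grb b r ρ ≤ LinearMap.ker (part b r T - pr b r ρ ∘ₗ T) := by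
    refine iSup₂_le fun p hp => ?_
    rw [Submodule.span_singleton_le_iff_mem, LinearMap.mem_ker, LinearMap.sub_apply, part,
      Basis.constr_basis, hp]
    exact sub_self _
  exact sub_eq_zero.1 (LinearMap.mem_ker.1 (h hx))

variable {b r c T} {N : Module.End K V}
  (hNr : ∀ (ρ : ℤ) (x : V), x ∈ grb b r ρ → N x ∈ grb b r (ρ - 2))
  (hTc : ∀ (γ : ℤ) (x : V), x ∈ grb b c γ → T x ∈ grb b c (γ - 2))
  (hTf : ∀ (ρ : ℤ) (x : V), x ∈ fil b r ρ → T x ∈ fil b r ρ)
  (hNT : ∀ x, N (T x) = T (N x))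

lemma part_mem {ρ : ℤ} {x : V} (hx : x ∈ grb b r ρ) : part b r T x ∈ grb b r ρ := by
  rw [part_of_mem b r T hx]
  exact pr_mem b r ρ _

include hTc in
lemma part_grb {γ : ℤ} {x : V} (hx : x ∈ grb b c γ) : part b r T x ∈ grb b c (γ - 2) := by
  have h : grb b c γ ≤ (grb b c (γ - 2)).comap (part b r T) := by
    refine iSup₂_le fun p hp => ?_
    rw [Submodule.span_singleton_le_iff_mem, Submodule.mem_comap, part, Basis.constr_basis]
    have h1 := mem_grb b c p
    rw [hp] at h1
    exact pr_grb b r c (hTc γ _ h1) _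
  exact h hx

include hTf in
lemma sub_part {ρ : ℤ} {x : V} (hx : x ∈ grb b r ρ) : T x - part b r T x ∈ fil b r (ρ - 1) := by
  rw [part_of_mem b r T hx]
  exact sub_pr_fil b r (hTf ρ x (grb_fil b r hx))

include hTf in
lemma pow_part {ρ : ℤ} {x : V} (hx : x ∈ grb b r ρ) (a : ℕ) :
    (part b r T ^ a) x ∈ grb b r ρ ∧ (T ^ a) x - (part b r T ^ a) x ∈ fil b r (ρ - 1) := by
  induction a with
  | zero => exact ⟨hx, by simp⟩
  | succ a ih =>
    obtain ⟨h1, h2⟩ := ih
    rw [pow_succ', Module.End.mul_apply, pow_succ', Module.End.mul_apply]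
    refine ⟨part_mem h1, ?_⟩
    have h3 := hTf _ _ h2
    rw [map_sub] at h3
    have h4 := sub_part hTf h1
    have h5 := Submodule.add_mem _ h3 h4
    rwa [sub_add_sub_cancel] at h5

include hNr in
lemma pr_N (ρ : ℤ) (x : V) : N (pr b r ρ x) = pr b r (ρ - 2) (N x) := by
  have h : N ∘ₗ pr b r ρ = pr b r (ρ - 2) ∘ₗ N := by
    refine b.ext fun i => ?_
    rw [LinearMap.comp_apply, LinearMap.comp_apply, pr_b]
    have h1 := hNr _ _ (mem_grb b r i)
    split_ifs with h
    · rw [h] at h1
      exact (pr_of_mem b r h1).symm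
    · rw [map_zero]
      exact (pr_of_mem_ne b r h1 (by omega)).symm
  exact LinearMap.congr_fun h x

include hNr hNT in
lemma part_comm : N * part b r T = part b r T * N := by
  refine b.ext fun i => ?_
  rw [Module.End.mul_apply, Module.End.mul_apply, part_of_mem b r T (mem_grb b r i),
    part_of_mem b r T (hNr _ _ (mem_grb b r i)), pr_N hNr, hNT]

/-- `part` commutes with the projections. -/
lemma part_pr (ρ : ℤ) (x : V) : part b r T (pr b r ρ x) = pr b r ρ (part b r T x) := by
  have h : part b r T ∘ₗ pr b r ρ = pr b r ρ ∘ₗ part b r T := by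
    refine b.ext fun i => ?_
    rw [LinearMap.comp_apply, LinearMap.comp_apply, pr_b]
    have h1 : part b r T (b i) ∈ grb b r (r i) := part_mem (mem_grb b r i)
    split_ifs with h
    · rw [h] at h1
      exact (pr_of_mem b r h1).symm
    · rw [map_zero]
      exact (pr_of_mem_ne b r h1 h).symm
  exact LinearMap.congr_fun h x

lemma part_pow_pr (ρ : ℤ) (a : ℕ) (x : V) :
    (part b r T ^ a) (pr b r ρ x) = pr b r ρ ((part b r T ^ a) x) := by
  induction a with
  | zero => rfl
  | succ a ih => rw [pow_succ', Module.End.mul_apply, ih, part_pr, Module.End.mul_apply]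

include hTc hTf in
/-- The part of degree zero is centred for the difference of the gradings. -/
lemma part_centred {d : I → ℤ} (hd : ∀ i, c i = r i + d i)
    (H1 : ∀ (ρ : ℤ) (a : ℕ) x, x ∈ fil b r ρ → x ∈ grb b c (ρ + a) →
      (T ^ a) x ∈ fil b r (ρ - 1) → x ∈ fil b r (ρ - 1))
    (H2 : ∀ (ρ : ℤ) (a : ℕ) y, y ∈ fil b r ρ → y ∈ grb b c (ρ - a) →
      ∃ x ∈ fil b r ρ, x ∈ grb b c (ρ + a) ∧ y - (T ^ a) x ∈ fil b r (ρ - 1)) :
    Centred (grb b d) (part b r T) := by
  classical
  -- the intersections of the gradings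
  have hint : ∀ (ρ δ : ℤ) (x : V), x ∈ grb b r ρ → x ∈ grb b d δ → x ∈ grb b c (ρ + δ) := by
    intro ρ δ x h1 h2
    rw [mem_grb_repr] at *
    intro i hi
    by_cases h3 : r i = ρ
    · apply h2 i
      intro h4
      apply hi
      rw [hd, h3, h4]
    · exact h1 i h3
  have hint' : ∀ (ρ δ : ℤ) (x : V), x ∈ grb b r ρ → x ∈ grb b c (ρ + δ) → x ∈ grb b d δ := by
    intro ρ δ x h1 h2
    rw [mem_grb_repr] at *
    intro i hi
    by_cases h3 : r i = ρ
    · apply h2 i
      intro h4
      apply hi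
      have := hd i
      omega
    · exact h1 i h3
  intro a
  refine ⟨fun x hx hx0 => ?_, fun y hy => ?_⟩
  · rw [← sum_pr b r x]
    refine Finset.sum_eq_zero fun ρ _ => ?_
    have h1 := pr_mem b r ρ x
    have h2 := hint ρ a _ h1 (pr_grb b r d hx ρ)
    have h3 := (pow_part hTf h1 a).2
    rw [part_pow_pr, hx0, map_zero, sub_zero] at h3
    exact eq_zero_of_grb_fil b r h1 (H1 ρ a _ (grb_fil b r h1) h2 h3)
  · have key : ∀ ρ : ℤ, ∃ x, x ∈ grb b d a ∧ (part b r T ^ a) x = pr b r ρ y := by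
      intro ρ
      have h1 := pr_mem b r ρ y
      have h2 := hint ρ (-(a : ℤ)) _ h1 (pr_grb b r d hy ρ)
      rw [← sub_eq_add_neg] at h2
      obtain ⟨x, hx, hx', hx''⟩ := H2 ρ a _ (grb_fil b r h1) h2
      have h3 := pr_mem b r ρ x
      refine ⟨pr b r ρ x, hint' ρ a _ h3 (pr_grb b r c hx' ρ), ?_⟩
      obtain ⟨h4, h5⟩ := pow_part hTf h3 a
      -- `T ^ a x = T ^ a (pr x)` modulo lower terms
      have h6 : (T ^ a) (x - pr b r ρ x) ∈ fil b r (ρ - 1) := by
        have : ∀ (k : ℕ) z, z ∈ fil b r (ρ - 1) → (T ^ k) z ∈ fil b r (ρ - 1) := by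
          intro k
          induction k with
          | zero => intro z hz; exact hz
          | succ k ih => intro z hz; rw [pow_succ', Module.End.mul_apply]; exact hTf _ _ (ih z hz)
        exact this a _ (sub_pr_fil b r hx)
      rw [map_sub] at h6
      have h7 : pr b r ρ y - (part b r T ^ a) (pr b r ρ x) ∈ fil b r (ρ - 1) := by
        have := Submodule.add_mem _ (Submodule.add_mem _ hx'' h6) h5
        rwa [sub_add_sub_cancel, sub_add_sub_cancel] at this
      have h8 := eq_zero_of_grb_fil b r (Submodule.sub_mem _ h1 h4) h7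
      exact (sub_eq_zero.1 h8).symm
    choose X hX hX' using key
    refine ⟨∑ ρ ∈ Finset.univ.image r, X ρ, Submodule.sum_mem _ fun ρ _ => hX ρ, ?_⟩
    rw [map_sum]
    conv_rhs => rw [← sum_pr b r y]
    exact Finset.sum_congr rfl fun ρ _ => hX' ρ

end parts

end Pool.Agent.V5helper87.NF
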