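import Pool.Agent.V5helper87.NF.Wt

/-!
# mw purity in terms of the decomposition by weights
-/

set_option autoImplicit false

namespace Pool.Agent.V5helper87.NF

open Module Pool.Agent.Y143 Pool.Agent.Y163.MW Pool.Agent.Y136.UB Pool.Agent.V5helper87.LP

universe u v v'

variable {Ω : Type u} [Field Ω] [CharZero Ω] {V : Type v} [AddCommGroup V] [Module Ω V]
  {q : ℕ}

lemma eigen_wt (hq : 1 < q) {Φ : Module.End Ω V} (h : HasWts q Φ) {w : ℤ} {α : Ω} {x : V}
    (hx : x ∈ wtsp q Φ w) (h0 : x ≠ 0) (hα : Φ x = α • x) : IsWeilNumber q w α := by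
  obtain ⟨w', hw'⟩ := h α x h0 hα
  have h1 : x ∈ wtsp q Φ w' := by
    refine mem_wtsp_of_gen hw' (mem_gen.2 ⟨1, ?_⟩)
    rw [pow_one, LinearMap.sub_apply, Module.algebraMap_end_apply, hα, sub_self]
  have h2 : w = w' := by
    by_contra hne
    have := (indep_wtsp hq Φ).pairwiseDisjoint hne
    exact h0 (Submodule.disjoint_def.1 this x hx h1)
  rw [h2]
  exact hw'

lemma iSup_shift {W : ℤ → Submodule Ω V} (h : ⨆ w, W w = ⊤) (i : ℤ) : ⨆ c, W (i + c) = ⊤ := by
  rw [eq_top_iff, ← h]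
  refine iSup_le fun w => ?_
  have := le_iSup (fun c => W (i + c)) (w - i)
  simpa using this

lemma indep_shift {W : ℤ → Submodule Ω V} (h : iSupIndep W) (i : ℤ) :
    iSupIndep fun c => W (i + c) :=
  h.comp (f := fun c : ℤ => i + c) (fun a b h => by simpa using h)

theorem isMWPure_iff [IsAlgClosed Ω] [FiniteDimensional Ω V] (hq : 1 < q) {i : ℤ}
    {Φ N : Module.End Ω V} (hN : ∀ x, N (Φ x) = (q : Ω) • Φ (N x)) :
    IsMWPure q i Φ N ↔ HasWts q Φ ∧ Centred (fun c => wtsp q Φ (i + c)) N := by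
  have hq0 : (q : Ω) ≠ 0 := Nat.cast_ne_zero.2 (by omega)
  have main : HasWts q Φ → ((∃ M : ℤ → Submodule Ω V, IsMonodromyFiltrationOn ⊤ N M ∧
      ∀ (s : ℤ) (α : Ω) (x : V), x ∈ M s → x ∉ M (s - 1) → Φ x - α • x ∈ M (s - 1) →
        IsWeilNumber q (s + i) α) ↔
      Centred (fun c => wtsp q Φ (i + c)) N) := by
    intro h
    refine Pool.Agent.Y48.MW.t_G Ω V ⊤ (fun c => wtsp q Φ (i + c)) Φ N (q : Ω)
      (fun s α => IsWeilNumber q (s + i) α) (iSup_shift (iSup_wtsp h) i)
      (indep_shift (indep_wtsp hq Φ) i) (fun c x hx => wtsp_Φ hx) (fun c x hx => ?_) hq0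
      (fun x _ => hN x) (fun c α x hx h0 hα => ?_) (fun c c' α h h' => ?_)
    · have := wtsp_N hq hN hx
      rwa [show i + c - 2 = i + (c - 2) by ring] at this
    · have := eigen_wt hq h hx h0 hα
      rwa [add_comm] at this
    · have := weil_unique hq h h'
      omega
  constructor
  · rintro ⟨M, hM, hMΦ, hMw⟩
    have hw : HasWts q Φ := by
      intro α x h0 hα
      -- the step of the filtration which contains `x`
      obtain ⟨a, ha⟩ := hM.bot
      obtain ⟨b, hb⟩ := hM.top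
      have key : ∀ n : ℕ, x ∈ M (a + n) → ∃ s, x ∈ M s ∧ x ∉ M (s - 1) := by
        intro n
        induction n with
        | zero =>
          intro h
          rw [Nat.cast_zero, add_zero, ha, Submodule.mem_bot] at h
          exact absurd h h0
        | succ n ih =>
          intro h
          by_cases h1 : x ∈ M (a + n)
          · exact ih h1
          · refine ⟨_, h, ?_⟩
            rwa [show a + ((n + 1 : ℕ) : ℤ) - 1 = a + n by push_cast; ring]
      have hx : x ∈ M (a + (b - a).toNat) := by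
        apply hM.mono (show b ≤ a + ((b - a).toNat : ℤ) by omega)
        rw [hb]
        trivial
      obtain ⟨s, hs, hs'⟩ := key _ hx
      exact ⟨_, hMw s α x hs hs' (by rw [hα, sub_self]; exact Submodule.zero_mem _)⟩
    refine ⟨hw, (main hw).1 ⟨M, hM.on, hMw⟩⟩
  · rintro ⟨hw, hc⟩
    obtain ⟨M, hM, hMw⟩ := (main hw).2 hc
    refine ⟨M, ⟨hM.mono, hM.bot, hM.top, hM.map, hM.inj, hM.surj⟩, fun a x hx => ?_, hMw⟩
    exact hM.functorial hM Φ (fun _ _ => trivial) hq0 (fun x _ => hN x) a hx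

end Pool.Agent.V5helper87.NF
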