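import Pool.Agent.Y163.MW.Lin
import Pool.Agent.Y153.MW.A
import Pool.Agent.Y664.MW.B2
import Pool.Agent.Y68.MW.D
import Pool.Agent.Y141.MW.L
import Pool.Agent.Y614.MW.F

/-!
# Sums of commuting lowering operators
-/

set_option autoImplicit false

namespace Pool.Agent.V5helper87.NF

open Module Pool.Agent.Y143 Pool.Agent.Y163.MW

universe u v

variable {K : Type u} [Field K] {V : Type v} [AddCommGroup V] [Module K V]

section grb

variable {I : Type} (b : Basis I K V) (d : I → ℤ)

/-- The grading given by a basis with degrees. -/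
def grb (a : ℤ) : Submodule K V := ⨆ (p : I) (_ : d p = a), Submodule.span K {b p}

lemma mem_grb (p : I) : b p ∈ grb b d (d p) :=
  Submodule.mem_iSup_of_mem p (Submodule.mem_iSup_of_mem rfl (Submodule.mem_span_singleton_self _))

lemma indep_grb : iSupIndep (grb b d) :=
  iSupIndep_fib b.linearIndependent.iSupIndep_span_singleton d

lemma iSup_grb : ⨆ a, grb b d a = ⊤ := by
  show (⨆ a, ⨆ (p : I) (_ : d p = a), Submodule.span K {b p}) = ⊤
  rw [iSup_fib, ← Submodule.span_range_eq_iSup, b.span_eq]

lemma isInternal_grb : DirectSum.IsInternal (grb b d) :=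
  DirectSum.isInternal_submodule_of_iSupIndep_of_iSup_eq_top (indep_grb b d) (iSup_grb b d)

/-- The operator given by the degrees. -/
noncomputable def dop : Module.End K V := b.constr K fun p => (d p : K) • b p

lemma dop_b (p : I) : dop b d (b p) = (d p : K) • b p := by
  rw [dop, Basis.constr_basis]

lemma dop_grb {a : ℤ} {x : V} (hx : x ∈ grb b d a) : dop b d x = (a : K) • x := by
  have h : grb b d a ≤ LinearMap.ker (dop b d - (a : K) • (1 : Module.End K V)) := by
    refine iSup₂_le fun p hp => ?_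
    rw [Submodule.span_singleton_le_iff_mem, LinearMap.mem_ker, LinearMap.sub_apply, dop_b, hp]
    exact sub_self _
  have h1 := h hx
  rw [LinearMap.mem_ker, LinearMap.sub_apply, sub_eq_zero] at h1
  exact h1

lemma repr_dop [Finite I] (x : V) (p : I) : b.repr (dop b d x) p = (d p : K) * b.repr x p := by
  classical
  have := Fintype.ofFinite I
  conv_lhs => rw [← b.sum_repr x]
  rw [map_sum]
  have h1 : ∀ j, dop b d (b.repr x j • b j) = ((d j : K) * b.repr x j) • b j := by
    intro j
    rw [map_smul, dop_b, smul_smul, mul_comm]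
  rw [Finset.sum_congr rfl fun j _ => h1 j, Basis.repr_sum_self]

lemma mem_grb_iff [Finite I] [CharZero K] {a : ℤ} {x : V} :
    x ∈ grb b d a ↔ dop b d x = (a : K) • x := by
  classical
  have := Fintype.ofFinite I
  refine ⟨dop_grb b d, fun h => ?_⟩
  have h1 : ∀ p, b.repr x p ≠ 0 → d p = a := by
    intro p hp
    have h2 := repr_dop b d x p
    rw [h, map_smul, Finsupp.smul_apply, smul_eq_mul] at h2
    have h3 := mul_right_cancel₀ hp h2
    exact_mod_cast h3.symm
  rw [← b.sum_repr x]
  refine Submodule.sum_mem _ fun p _ => ?_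
  by_cases hp : b.repr x p = 0
  · rw [hp, zero_smul]
    exact Submodule.zero_mem _
  · refine Submodule.smul_mem _ _ ?_
    have := mem_grb b d p
    rwa [h1 p hp] at this

end grb

section ring

lemma jac {A : Type*} [Ring A] (a x y : A) : a * (x * y - y * x) - (x * y - y * x) * a =
    ((a * x - x * a) * y - y * (a * x - x * a)) + (x * (a * y - y * a) - (a * y - y * a) * x) := by
  noncomm_ring

end ring

section sl2

variable [CharZero K] {I : Type} [Fintype I] {b : Basis I K V} {r : I → ℤ}
  {N e h : Module.End K V}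

/-- A highest weight element of weight two which commutes with the lowering operator is trivial. -/
lemma sl2_zero (H : IsSl2 N b r e h) {z : Module.End K V} (hz : N * z - z * N = 0)
    (hz2 : h * z - z * h = (2 : K) • z) : z = 0 := by
  have hM := Pool.Agent.Y68.MW.fil_monodromy Pool.Agent.Y141.MW.stL H
  have hcomm : ∀ x, z (N x) = N (z x) := fun x => by
    have := LinearMap.congr_fun (sub_eq_zero.1 hz) x
    exact this.symm
  refine b.ext fun i => ?_
  rw [LinearMap.zero_apply]
  have h1 : h (z (b i)) = ((r i + 2 : ℤ) : K) • z (b i) := by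
    have h2 := LinearMap.congr_fun hz2 (b i)
    rw [LinearMap.sub_apply, Module.End.mul_apply, Module.End.mul_apply, LinearMap.smul_apply,
      H.wt, map_smul, sub_eq_iff_eq_add, ← add_smul] at h2
    rw [h2]
    push_cast
    rw [add_comm]
  have h3 : z (b i) ∈ Pool.Agent.Y68.MW.fil b r (r i) := by
    refine hM.functorial hM z (fun _ _ => trivial) one_ne_zero (fun x _ => ?_) (r i) ?_
    · rw [one_smul, hcomm]
    · exact Submodule.subset_span ⟨i, show r i ≤ r i from le_rfl, rfl⟩
  rw [Pool.Agent.Y68.MW.mem_fil] at h3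
  apply b.repr.injective
  ext j
  rw [map_zero, Finsupp.zero_apply]
  by_cases hj : r j = r i + 2
  · exact h3 j (by omega)
  · exact Pool.Agent.Y68.MW.repr_eq_zero H h1 hj

variable {J : Type} [Fintype J] {b₂ : Basis J K V} {r₂ : J → ℤ} {n e₂ : Module.End K V}
  {d : I → ℤ}

/-- Two commuting `sl(2)`-data. -/
theorem sl2_sum (H : IsSl2 N b r e h) (H₂ : IsSl2 n b₂ r₂ e₂ (dop b d))
    (hNn : N * n - n * N = 0) (hhn : h * n - n * h = 0) (hDN : dop b d * N - N * dop b d = 0) :
    IsSl2 (N + n) b (fun p => r p + d p) (e + e₂) (h + dop b d) := by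
  set D := dop b d with hD
  have hhD : h * D - D * h = 0 := by
    rw [sub_eq_zero]
    refine b.ext fun p => ?_
    rw [Module.End.mul_apply, Module.End.mul_apply, hD, dop_b, H.wt, map_smul, map_smul, H.wt,
      dop_b, smul_comm]
  -- swapped forms
  have hnN : n * N - N * n = 0 := by rw [← neg_sub, hNn, neg_zero]
  have hnh : n * h - h * n = 0 := by rw [← neg_sub, hhn, neg_zero]
  have hND : N * D - D * N = 0 := by rw [← neg_sub, hDN, neg_zero]
  have hDh : D * h - h * D = 0 := by rw [← neg_sub, hhD, neg_zero]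
  have hNe : N * e - e * N = -h := by rw [← H.eN, neg_sub]
  have hne : n * e₂ - e₂ * n = -D := by rw [← H₂.eN, neg_sub]
  have hnD : n * D - D * n = (2 : K) • n := by rw [← neg_sub, H₂.hN, neg_smul, neg_neg]
  have hNh : N * h - h * N = (2 : K) • N := by rw [← neg_sub, H.hN, neg_smul, neg_neg]
  -- the four vanishing brackets
  have z1 : e * n - n * e = 0 := by
    apply sl2_zero H
    · rw [jac, hNe, hNn, mul_zero, zero_mul, sub_zero, add_zero, neg_mul, mul_neg, sub_neg_eq_add,
        neg_add_eq_sub, hnh]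
    · rw [jac, H.he, hhn, mul_zero, zero_mul, sub_zero, add_zero, smul_mul_assoc, mul_smul_comm,
        smul_sub]
  have z2 : e₂ * N - N * e₂ = 0 := by
    apply sl2_zero H₂
    · rw [jac, hne, hnN, mul_zero, zero_mul, sub_zero, add_zero, neg_mul, mul_neg, sub_neg_eq_add,
        neg_add_eq_sub, hND]
    · rw [jac, H₂.he, hDN, mul_zero, zero_mul, sub_zero, add_zero, smul_mul_assoc, mul_smul_comm,
        smul_sub]
  have z3 : h * e₂ - e₂ * h = 0 := by
    apply sl2_zero H₂
    · rw [jac, hne, hnh, zero_mul, mul_zero, sub_zero, zero_add, neg_mul, mul_neg, sub_neg_eq_add,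
        neg_add_eq_sub, hDh]
    · rw [jac, H₂.he, hDh, zero_mul, mul_zero, sub_zero, zero_add, smul_mul_assoc, mul_smul_comm,
        smul_sub]
  have z4 : D * e - e * D = 0 := by
    apply sl2_zero H
    · rw [jac, hNe, hND, zero_mul, mul_zero, sub_zero, zero_add, neg_mul, mul_neg, sub_neg_eq_add,
        neg_add_eq_sub, hhD]
    · rw [jac, H.he, hhD, zero_mul, mul_zero, sub_zero, zero_add, smul_mul_assoc, mul_smul_comm,
        smul_sub]
  refine ⟨fun p => ?_, ?_, ?_, ?_⟩
  · rw [LinearMap.add_apply, H.wt, hD, dop_b, ← add_smul]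
    push_cast
    rfl
  · have e1 : (e + e₂) * (N + n) - (N + n) * (e + e₂) = (e * N - N * e) + (e * n - n * e) +
        (e₂ * N - N * e₂) + (e₂ * n - n * e₂) := by noncomm_ring
    rw [e1, z1, z2, H.eN, H₂.eN, add_zero, add_zero]
  · have e1 : (h + D) * (N + n) - (N + n) * (h + D) = (h * N - N * h) + (h * n - n * h) +
        (D * N - N * D) + (D * n - n * D) := by noncomm_ring
    rw [e1, hhn, hDN, H.hN, H₂.hN, add_zero, add_zero, smul_add]
  · have e1 : (h + D) * (e + e₂) - (e + e₂) * (h + D) = (h * e - e * h) + (h * e₂ - e₂ * h) +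
        (D * e - e * D) + (D * e₂ - e₂ * D) := by noncomm_ring
    rw [e1, z3, z4, H.he, H₂.he, add_zero, add_zero, smul_add]

/-- The lowering operator of `sl(2)`-data is centred. -/
theorem IsSl2.centred {c : I → ℤ} (H : IsSl2 N b c e h) : Centred (grb b c) N := by
  have hh : h = dop b c := b.ext fun p => by rw [H.wt, dop_b]
  intro a
  obtain ⟨h1, h2⟩ := Pool.Agent.Y141.MW.stL K V N I b c e h H a
  refine ⟨fun x hx hx0 => h1 x ?_ hx0, fun y hy => ?_⟩
  · rw [hh]
    have := dop_grb b c hx
    rwa [Int.cast_natCast] at this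
  · obtain ⟨x, hx, hx'⟩ := h2 y (by
      rw [hh]
      have := dop_grb b c hy
      rwa [Int.cast_neg, Int.cast_natCast] at this)
    refine ⟨x, (mem_grb_iff b c).2 ?_, hx'⟩
    rw [← hh, hx, Int.cast_natCast]

end sl2

section main

variable [CharZero K] [Module.Finite K V] {W : ℤ → Submodule K V} {N n : Module.End K V}

/-- The sum of two commuting lowering operators. -/
theorem centred_sum (S : Strings W N)
    (hn : ∀ c, ∀ x ∈ grb S.b (fun p => S.top p.1 - 2 * (p.2 : ℕ)) c,
      n x ∈ grb S.b (fun p => S.top p.1 - 2 * (p.2 : ℕ)) (c - 2))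
    (hn0 : ∀ c, ∀ x ∈ grb S.b (fun p => (S.len p.1 : ℤ) - 2 * (p.2 : ℕ)) c,
      n x ∈ grb S.b (fun p => (S.len p.1 : ℤ) - 2 * (p.2 : ℕ)) c)
    (hNn : N * n = n * N)
    (hC : Centred (grb S.b (fun p => S.top p.1 - (S.len p.1 : ℤ))) n) :
    Centred (grb S.b (fun p => S.top p.1 - 2 * (p.2 : ℕ))) (N + n) := by
  obtain ⟨e, h, H⟩ := Pool.Agent.Y664.MW.t_B2 K V W N S
  set r : (Σ s : S.ι, Fin (S.len s + 1)) → ℤ := fun p => (S.len p.1 : ℤ) - 2 * (p.2 : ℕ) with hr
  set t : (Σ s : S.ι, Fin (S.len s + 1)) → ℤ := fun p => S.top p.1 - 2 * (p.2 : ℕ) with ht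
  set d : (Σ s : S.ι, Fin (S.len s + 1)) → ℤ := fun p => S.top p.1 - (S.len p.1 : ℤ) with hd
  have hh : h = dop S.b r := S.b.ext fun p => by rw [H.wt, dop_b]
  have hC' : dop S.b t = h + dop S.b d := S.b.ext fun p => by
    rw [LinearMap.add_apply, H.wt, dop_b, dop_b, ← add_smul]
    congr 1
    rw [← Int.cast_add]
    congr 1
    simp only [ht, hr, hd]
    ring
  -- brackets with the degree operators
  have brk : ∀ (g : (Σ s : S.ι, Fin (S.len s + 1)) → ℤ) (T : Module.End K V) (k : ℤ),
      (∀ c, ∀ x ∈ grb S.b g c, T x ∈ grb S.b g (c - k)) →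
      dop S.b g * T - T * dop S.b g = (-(k : K)) • T := by
    intro g T k hT
    refine S.b.ext fun p => ?_
    have h1 := dop_grb S.b g (hT _ _ (mem_grb S.b g p))
    rw [LinearMap.sub_apply, Module.End.mul_apply, Module.End.mul_apply, h1, dop_b, map_smul,
      LinearMap.smul_apply, ← sub_smul]
    congr 1
    push_cast
    ring
  have b1 : dop S.b t * n - n * dop S.b t = (-(2 : K)) • n := by
    have := brk t n 2 hn
    simpa using this
  have b2 : h * n - n * h = 0 := by
    have := brk r n 0 (by simpa using hn0)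
    rw [hh]
    simpa using this
  have hDn : dop S.b d * n - n * dop S.b d = (-(2 : K)) • n := by
    have e1 : dop S.b t * n - n * dop S.b t = (h * n - n * h) +
        (dop S.b d * n - n * dop S.b d) := by
      rw [hC']
      noncomm_ring
    rw [← b1, e1, b2, zero_add]
  have hDN : dop S.b d * N - N * dop S.b d = 0 := by
    rw [sub_eq_zero]
    refine S.b.ext fun p => ?_
    rw [Module.End.mul_apply, Module.End.mul_apply, dop_b, map_smul]
    obtain ⟨s, i⟩ := p
    induction i using Fin.lastCases with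
    | last => rw [S.last, map_zero, smul_zero]
    | cast i => rw [S.succ, dop_b]
  -- strings for `n`
  have hnd : ∀ a, ∀ x ∈ grb S.b d a, n x ∈ grb S.b d (a - 2) := by
    intro a x hx
    rw [mem_grb_iff]
    have h1 := LinearMap.congr_fun hDn x
    rw [LinearMap.sub_apply, Module.End.mul_apply, Module.End.mul_apply, dop_grb S.b d hx, map_smul,
      LinearMap.smul_apply, sub_eq_iff_eq_add, ← add_smul] at h1
    rw [h1]
    congr 1
    push_cast
    ring
  obtain ⟨S₂⟩ := Pool.Agent.Y153.MW.stA K V (grb S.b d) n (isInternal_grb S.b d) hnd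
  have htop := (Pool.Agent.Y614.MW.stF K V (grb S.b d) n (isInternal_grb S.b d) S₂).1 hC
  obtain ⟨e₂, h₂, H₂⟩ := Pool.Agent.Y664.MW.t_B2 K V (grb S.b d) n S₂
  have hh2 : h₂ = dop S.b d := by
    refine S₂.b.ext fun p => ?_
    rw [H₂.wt]
    have := S₂.mem p.1 p.2
    rw [htop] at this
    exact (dop_grb S.b d this).symm
  rw [hh2] at H₂
  have key := sl2_sum H H₂ (sub_eq_zero.2 hNn) b2 hDN
  have e2 : (fun p => r p + d p) = t := by
    funext p
    simp only [ht, hr, hd]
    ring
  have key2 := IsSl2.centred key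
  have e3 : (fun p : (Σ s : S.ι, Fin (S.len s + 1)) => ((S.len p.1 : ℤ) - 2 * (p.2 : ℕ)) + d p) = t := e2
  rw [e3] at key2
  exact key2

end main

end Pool.Agent.V5helper87.NF
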