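import Pool.Agent.V5helper87.LP.Rep
import Pool.Agent.Y48.MW.G
import Pool.Agent.Y163.MW.Wt

/-!
# The decomposition by weights of a Frobenius module
-/

set_option autoImplicit false

namespace Pool.Agent.V5helper87.NF

open Module Pool.Agent.Y143 Pool.Agent.Y163.MW Pool.Agent.Y136.UB Pool.Agent.V5helper87.LP

universe u v v'

variable {Ω : Type u} [Field Ω] [CharZero Ω] {V : Type v} [AddCommGroup V] [Module Ω V]
  {V' : Type v'} [AddCommGroup V'] [Module Ω V']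

/-- The part of weight `w`. -/
def wtsp (q : ℕ) (Φ : Module.End Ω V) (w : ℤ) : Submodule Ω V :=
  ⨆ (α : Ω) (_ : IsWeilNumber q w α), Φ.maxGenEigenspace α

/-- All eigenvalues are Weil numbers (of some weight). -/
def HasWts (q : ℕ) (Φ : Module.End Ω V) : Prop :=
  ∀ (α : Ω) (x : V), x ≠ 0 → Φ x = α • x → ∃ w : ℤ, IsWeilNumber q w α

lemma gen_smul {Φ : Module.End Ω V} {α c : Ω} {x : V} (hx : x ∈ Φ.maxGenEigenspace α) :
    x ∈ (c • Φ).maxGenEigenspace (c * α) := by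
  obtain ⟨k, hk⟩ := mem_gen.1 hx
  refine mem_gen.2 ⟨k, ?_⟩
  have e : c • Φ - algebraMap Ω (Module.End Ω V) (c * α) =
      c • (Φ - algebraMap Ω (Module.End Ω V) α) := by
    ext z
    simp only [LinearMap.sub_apply, LinearMap.smul_apply, Module.algebraMap_end_apply,
      smul_sub, smul_smul]
  rw [e, smul_pow, LinearMap.smul_apply, hk, smul_zero]

variable {q : ℕ}

lemma mem_wtsp_of_gen {Φ : Module.End Ω V} {w : ℤ} {α : Ω} (hα : IsWeilNumber q w α) {x : V}
    (hx : x ∈ Φ.maxGenEigenspace α) : x ∈ wtsp q Φ w :=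
  Submodule.mem_iSup_of_mem α (Submodule.mem_iSup_of_mem hα hx)

lemma wtsp_map {Φ : Module.End Ω V} {Φ' : Module.End Ω V'} (f : V →ₗ[Ω] V')
    (hf : ∀ x, f (Φ x) = Φ' (f x)) {w : ℤ} {x : V} (hx : x ∈ wtsp q Φ w) :
    f x ∈ wtsp q Φ' w := by
  have h : wtsp q Φ w ≤ (wtsp q Φ' w).comap f :=
    iSup₂_le fun α hα y hy => mem_wtsp_of_gen hα (gen_map f (fun z => (hf z).symm) hy)
  exact h hx

lemma wtsp_twist (hq : 1 < q) {Φ : Module.End Ω V} {w : ℤ} {x : V} (hx : x ∈ wtsp q Φ w) (c : ℤ) :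
    x ∈ wtsp q ((q : Ω) ^ c • Φ) (w + 2 * c) := by
  have h : wtsp q Φ w ≤ wtsp q ((q : Ω) ^ c • Φ) (w + 2 * c) :=
    iSup₂_le fun α hα y hy => mem_wtsp_of_gen (hα.twist (by omega) c) (gen_smul hy)
  exact h hx

lemma wtsp_N (hq : 1 < q) {Φ N : Module.End Ω V} (hN : ∀ x, N (Φ x) = (q : Ω) • Φ (N x)) {w : ℤ}
    {x : V} (hx : x ∈ wtsp q Φ w) : N x ∈ wtsp q Φ (w - 2) := by
  have hq0 : (q : Ω) ≠ 0 := Nat.cast_ne_zero.2 (by omega)
  have h1 := wtsp_twist hq hx (-1)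
  rw [show w + 2 * (-1) = w - 2 by ring] at h1
  refine wtsp_map N (fun z => ?_) h1
  rw [LinearMap.smul_apply, map_smul, hN, smul_smul, zpow_neg_one, inv_mul_cancel₀ hq0, one_smul]

lemma wtsp_Φ {Φ : Module.End Ω V} {w : ℤ} {x : V} (hx : x ∈ wtsp q Φ w) : Φ x ∈ wtsp q Φ w :=
  wtsp_map Φ (fun _ => rfl) hx

lemma wtsp_pow (hq : 1 < q) {Φ N : Module.End Ω V} (hN : ∀ x, N (Φ x) = (q : Ω) • Φ (N x)) {w : ℤ}
    {x : V} (hx : x ∈ wtsp q Φ w) (a : ℕ) : (N ^ a) x ∈ wtsp q Φ (w - 2 * a) := by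
  induction a with
  | zero => simpa using hx
  | succ a ih =>
    rw [pow_succ', Module.End.mul_apply]
    have := wtsp_N hq hN ih
    rwa [show w - 2 * (a : ℤ) - 2 = w - 2 * ((a + 1 : ℕ) : ℤ) by push_cast; ring] at this

lemma indep_wtsp (hq : 1 < q) (Φ : Module.End Ω V) : iSupIndep (wtsp q Φ) := by
  classical
  have h1 : iSupIndep fun α : Ω => Φ.maxGenEigenspace α := Module.End.independent_maxGenEigenspace Φ
  -- the weight of a Weil number
  let f : Ω → Option ℤ := fun α => if h : ∃ w : ℤ, IsWeilNumber q w α then some h.choose else none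
  have hf : ∀ (w : ℤ) (α : Ω), IsWeilNumber q w α ↔ f α = some w := by
    intro w α
    constructor
    · intro h
      have hex : ∃ w : ℤ, IsWeilNumber q w α := ⟨w, h⟩
      simp only [f, dif_pos hex]
      congr 1
      exact weil_unique hq hex.choose_spec h
    · intro h
      by_cases hex : ∃ w : ℤ, IsWeilNumber q w α
      · simp only [f, dif_pos hex, Option.some.injEq] at h
        rw [← h]
        exact hex.choose_spec
      · simp only [f, dif_neg hex] at h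
        exact absurd h (by simp)
  have h2 := iSupIndep_fib h1 f
  have h3 := h2.comp (f := fun w : ℤ => some w) (fun a b h => Option.some.inj h)
  refine h3.mono fun w => ?_
  show wtsp q Φ w ≤ ⨆ (i : Ω) (_ : f i = some w), Φ.maxGenEigenspace i
  exact iSup₂_le fun α hα => le_iSup₂_of_le α ((hf w α).1 hα) le_rfl

lemma iSup_wtsp [IsAlgClosed Ω] [FiniteDimensional Ω V] {Φ : Module.End Ω V} (h : HasWts q Φ) :
    ⨆ w, wtsp q Φ w = ⊤ := by
  rw [eq_top_iff, ← Module.End.iSup_maxGenEigenspace_eq_top Φ]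
  refine iSup_le fun α => ?_
  by_cases h0 : Φ.maxGenEigenspace α = ⊥
  · rw [h0]
    exact bot_le
  · obtain ⟨x, hx, hx0⟩ := (Submodule.ne_bot_iff _).1 h0
    obtain ⟨y, -, hy0, hy⟩ := exists_eigen_of_gen (S := (⊤ : Submodule Ω V)) (fun _ _ => trivial)
      trivial hx hx0
    obtain ⟨w, hw⟩ := h α y hy0 hy
    exact le_iSup_of_le w (le_iSup₂_of_le α hw le_rfl)

/-- Decomposition of an element. -/
lemma exists_decomp {W : ℤ → Submodule Ω V} (h : ⨆ w, W w = ⊤) (x : V) :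
    ∃ (s : Finset ℤ) (y : ℤ → V), (∀ w, y w ∈ W w) ∧ x = ∑ w ∈ s, y w := by
  classical
  have hx : x ∈ ⨆ w, W w := by rw [h]; trivial
  rw [Submodule.mem_iSup_iff_exists_finsupp] at hx
  obtain ⟨f, hf, hfx⟩ := hx
  exact ⟨f.support, f, hf, hfx.symm⟩

/-- A homogeneous element in the image of a homogeneous map is the image of a homogeneous
element. -/
lemma exists_lift {W : ℤ → Submodule Ω V} (h : ⨆ w, W w = ⊤) {W' : ℤ → Submodule Ω V'}
    (h' : iSupIndep W') (f : V →ₗ[Ω] V') (hf : ∀ w x, x ∈ W w → f x ∈ W' w) {w : ℤ} {x : V}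
    (hx : f x ∈ W' w) : ∃ y ∈ W w, f y = f x := by
  classical
  obtain ⟨s, y, hy, rfl⟩ := exists_decomp h x
  refine ⟨if w ∈ s then y w else 0, ?_, ?_⟩
  · split_ifs
    · exact hy w
    · exact Submodule.zero_mem _
  · have h1 : f (∑ w ∈ s, y w) - f (if w ∈ s then y w else 0) =
        ∑ v ∈ s.erase w, f (y v) := by
      by_cases hw : w ∈ s
      · rw [if_pos hw, ← Finset.sum_erase_add _ _ hw, map_add, add_sub_cancel_right, map_sum]
      · rw [if_neg hw, map_zero, sub_zero, Finset.erase_eq_of_notMem hw, map_sum]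
    have h2 : ∑ v ∈ s.erase w, f (y v) ∈ ⨆ (j) (_ : j ≠ w), W' j :=
      Submodule.sum_mem _ fun v hv => Submodule.mem_iSup_of_mem v
        (Submodule.mem_iSup_of_mem (Finset.ne_of_mem_erase hv) (hf v _ (hy v)))
    have h3 : ∑ v ∈ s.erase w, f (y v) ∈ W' w := by
      rw [← h1]
      refine Submodule.sub_mem _ hx (hf w _ ?_)
      split_ifs
      · exact hy w
      · exact Submodule.zero_mem _
    have h4 := Submodule.disjoint_def.1 (iSupIndep_def.1 h' w) _ h3 h2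
    rw [h4, sub_eq_zero] at h1
    exact h1.symm

section subq

variable {B A : Submodule Ω V} {Φ : Module.End Ω V} (hB : ∀ x ∈ B, Φ x ∈ B) (hA : ∀ x ∈ A, Φ x ∈ A)

include hB hA in
lemma hasWts_indQ [IsAlgClosed Ω] [FiniteDimensional Ω V] (h : HasWts q Φ) :
    HasWts q (indQ B A Φ hB hA) := by
  intro α z hz hα
  obtain ⟨x, rfl⟩ := clQ_surj B A z
  have h1 := (clQ_eigen B A Φ hB hA α x).1 hα
  have h2 : (x : V) ∉ A := fun h => hz ((clQ_eq_zero B A x).2 h)
  -- the operator `Φ - α` is not injective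
  by_contra hno
  have hinj : Function.Injective (Φ - α • (1 : Module.End Ω V)) := by
    rw [← LinearMap.ker_eq_bot, LinearMap.ker_eq_bot']
    intro y hy
    by_contra hy0
    exact hno (h α y hy0 (sub_eq_zero.1 hy))
  have hres : ∀ y ∈ A, (Φ - α • (1 : Module.End Ω V)) y ∈ A := fun y hy =>
    A.sub_mem (hA y hy) (A.smul_mem _ hy)
  have hsurj : Function.Surjective ((Φ - α • (1 : Module.End Ω V)).restrict hres) := by
    apply LinearMap.injective_iff_surjective.1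
    intro y y' hyy
    exact Subtype.ext (hinj (congrArg Subtype.val hyy))
  obtain ⟨y, hy⟩ := hsurj ⟨_, h1⟩
  have h3 : (Φ - α • (1 : Module.End Ω V)) (y : V) = (Φ - α • (1 : Module.End Ω V)) (x : V) :=
    congrArg Subtype.val hy
  exact h2 (hinj h3 ▸ y.2)

lemma hasWts_restrict (h : HasWts q Φ) : HasWts q (LinearMap.restrict Φ hB : Module.End Ω B) := by
  intro α x hx0 hx
  exact h α x (fun h0 => hx0 (Subtype.ext h0)) (congrArg Subtype.val hx)

lemma mem_wtsp_restrict [IsAlgClosed Ω] [FiniteDimensional Ω V] (hq : 1 < q) (h : HasWts q Φ)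
    {w : ℤ} {x : V} (hx : x ∈ B) (hxw : x ∈ wtsp q Φ w) :
    (⟨x, hx⟩ : B) ∈ wtsp q (LinearMap.restrict Φ hB : Module.End Ω B) w := by
  obtain ⟨y, hy, hy'⟩ := exists_lift (iSup_wtsp (hasWts_restrict hB h)) (indep_wtsp hq Φ)
    B.subtype (fun w x hx => wtsp_map B.subtype (fun _ => rfl) hx) (x := ⟨x, hx⟩) hxw
  have : y = ⟨x, hx⟩ := B.injective_subtype hy'
  rwa [← this]

lemma clQ_mem [IsAlgClosed Ω] [FiniteDimensional Ω V] (hq : 1 < q) (h : HasWts q Φ) {w : ℤ} {x : V}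
    (hx : x ∈ B) (hxw : x ∈ wtsp q Φ w) :
    clQ B A ⟨x, hx⟩ ∈ wtsp q (indQ B A Φ hB hA) w :=
  wtsp_map (A.comap B.subtype).mkQ (fun _ => rfl) (mem_wtsp_restrict hB hq h hx hxw)

lemma exists_clQ [IsAlgClosed Ω] [FiniteDimensional Ω V] (hq : 1 < q) (h : HasWts q Φ) {w : ℤ}
    {z : SubQ B A} (hz : z ∈ wtsp q (indQ B A Φ hB hA) w) :
    ∃ (x : V) (hx : x ∈ B), x ∈ wtsp q Φ w ∧ clQ B A ⟨x, hx⟩ = z := by
  obtain ⟨x, rfl⟩ := clQ_surj B A z
  obtain ⟨y, hy, hy'⟩ := exists_lift (iSup_wtsp (hasWts_restrict hB h))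
    (indep_wtsp hq (indQ B A Φ hB hA)) (A.comap B.subtype).mkQ
    (fun w x hx => wtsp_map (A.comap B.subtype).mkQ (fun _ => rfl) hx) (x := x) hz
  exact ⟨y, y.2, wtsp_map B.subtype (fun _ => rfl) hy, hy'⟩

end subq

end Pool.Agent.V5helper87.NF
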